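import Pool.Agent.H67EF.Core

set_option autoImplicit false

namespace Pool.Agent.H67EF

open Finset

theorem W_unbounded (A : ℝ) : ∃ Y : ℕ, 1 ≤ Y ∧ A ≤ W Y := by
  have h1 := Real.tendsto_sum_range_one_div_nat_succ_atTop
  obtain ⟨Y, hY⟩ := ((Filter.tendsto_atTop.1 h1 A).and (Filter.eventually_ge_atTop 1)).exists
  refine ⟨Y, hY.2, hY.1.trans (le_of_eq ?_)⟩
  unfold W
  have : Icc 1 Y = Ico 1 (Y + 1) := by
    ext x
    simp only [mem_Icc, mem_Ico]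
    omega
  rw [this, sum_Ico_eq_sum_range, Nat.add_sub_cancel]
  refine sum_congr rfl fun i _ => ?_
  push_cast
  rw [add_comm]

theorem mem_of_dvd_val (P : Finset ℕ) (hP : ∀ p ∈ P, p.Prime) (Y : ℕ) (hY : ∀ p ∈ P, Y < p)
    (n : ℕ × Finset ℕ) (h1 : n.1 ∈ Icc 1 Y) (h2 : n.2 ⊆ P) (p : ℕ) (hp : p ∈ P) :
    p ∣ val n ↔ p ∈ n.2 := by
  constructor
  · intro h
    unfold val at h
    rw [mem_Icc] at h1
    rcases (hP p hp).dvd_mul.1 h with h3 | h3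
    · have := Nat.le_of_dvd (by omega) h3
      have := hY p hp
      omega
    · obtain ⟨q, hq, hpq⟩ := ((hP p hp).prime.dvd_finsetProd_iff _).1 h3
      rwa [(Nat.prime_dvd_prime_iff_eq (hP p hp) (hP q (h2 hq))).1 hpq]
  · intro h
    exact Dvd.dvd.mul_left (dvd_prod_of_mem _ h) _

theorem val_inj (P : Finset ℕ) (hP : ∀ p ∈ P, p.Prime) (Y : ℕ) (hY : ∀ p ∈ P, Y < p)
    (n n' : ℕ × Finset ℕ) (h1 : n.1 ∈ Icc 1 Y) (h2 : n.2 ⊆ P) (h1' : n'.1 ∈ Icc 1 Y)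
    (h2' : n'.2 ⊆ P) (h : val n = val n') : n = n' := by
  have h3 : n.2 = n'.2 := by
    ext p
    constructor
    · intro hp
      rw [← mem_of_dvd_val P hP Y hY n' h1' h2' p (h2 hp), ← h]
      exact (mem_of_dvd_val P hP Y hY n h1 h2 p (h2 hp)).2 hp
    · intro hp
      rw [← mem_of_dvd_val P hP Y hY n h1 h2 p (h2' hp), h]
      exact (mem_of_dvd_val P hP Y hY n' h1' h2' p (h2' hp)).2 hp
  refine Prod.ext ?_ h3
  unfold val at h
  rw [h3] at h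
  have h4 : 0 < ∏ p ∈ n'.2, p := prod_pos fun p hp => (hP p (h2' hp)).pos
  exact Nat.eq_of_mul_eq_mul_right h4 h

/-- The monochromatic statement, with a bound for the integer that does not depend on how far
out the solution is sought. -/
theorem core (r : ℕ) (hr : 1 ≤ r) : ∃ T : ℕ, ∀ N0 : ℕ, ∀ c : ℕ → Fin r, ∃ i : Fin r,
    ∃ S : Finset ℕ, S.Nonempty ∧ (∀ n ∈ S, N0 < n ∧ c n = i) ∧
      ∃ m : ℕ, 1 ≤ m ∧ m ≤ T ∧ ∑ n ∈ S, (1 / n : ℚ) = m := by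
  classical
  have hr' : (1 : ℝ) ≤ r := by exact_mod_cast hr
  obtain ⟨κ, hκ⟩ : ∃ κ : ℝ, κ = (1 / (53760 * (r : ℝ))) ^ 2 *
    ((1 / (53760 * (r : ℝ)) / 2) ^ 5 / 120) := ⟨_, rfl⟩
  have hκ0 : 0 < κ := by
    rw [hκ]
    positivity
  obtain ⟨Y, hY1, hYW⟩ := W_unbounded (800 * r / κ)
  have hW : 800 * (r : ℝ) ≤ κ * W Y := by
    rw [div_le_iff₀ hκ0] at hYW
    linarith
  refine ⟨⌈W Y⌉₊, fun N0 c => ?_⟩
  obtain ⟨t, ht⟩ : ∃ t : ℕ, t = 10 ^ 8 * r ^ 2 * Y ^ 2 + N0 + 1 := ⟨_, rfl⟩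
  have ht1 : 1 ≤ t := by omega
  have ht4 : t < 4 ^ t := Nat.lt_pow_self (by norm_num)
  have hg : (10 : ℝ) ^ 8 * (r : ℝ) ^ 2 * (Y : ℝ) ^ 2 ≤ (4 : ℝ) ^ t := by
    have h : 10 ^ 8 * r ^ 2 * Y ^ 2 ≤ 4 ^ t := by omega
    exact_mod_cast h
  set X := (Icc 1 Y) ×ˢ (PP t).powersetCard 7 with hX
  have hXw : wt X = W Y * es 7 (PP t) := wt_prod _ _ _
  have hsum : ∑ i : Fin r, wt (X.filter (fun n => c (val n) = i)) = wt X := by
    unfold wt
    exact sum_fiberwise X (fun n => c (val n)) (fun n => (1 / val n : ℝ))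
  have : NeZero r := ⟨by omega⟩
  obtain ⟨i, _, hi⟩ := exists_le_of_sum_le (s := (univ : Finset (Fin r)))
    (f := fun _ => wt X / r) (g := fun i => wt (X.filter (fun n => c (val n) = i)))
    univ_nonempty (by
      rw [hsum, sum_const, card_univ, Fintype.card_fin, nsmul_eq_mul]
      refine le_of_eq ?_
      field_simp)
  have hXm : ∀ n ∈ X, n.1 ∈ Icc 1 Y ∧ n.2 ∈ (PP t).powersetCard 7 := fun n hn => mem_product.1 hn
  have hPr : ∀ p ∈ PP t, p.Prime := fun p hp => (PP_mem hp).1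
  have hYP : ∀ p ∈ PP t, Y < p := by
    intro p hp
    have h1 := (PP_mem hp).2.1
    have h2 : 4 ^ t ≤ (4 ^ t) ^ 39 := Nat.le_self_pow (by norm_num) _
    have h3 : Y ≤ 10 ^ 8 * r ^ 2 * Y ^ 2 := by nlinarith [Nat.one_le_pow 2 r hr, Nat.one_le_pow 2 Y hY1]
    omega
  obtain ⟨S, hSX, hSne, m, hm⟩ := onecolor r Y t hr hY1 (by rw [← hκ]; exact hW) ht1
    ((4 : ℝ) ^ t) rfl hg (X.filter (fun n => c (val n) = i))
    (fun n hn => hXm n (mem_filter.1 hn).1) (by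
      rw [← hXw]
      have := hi
      rw [div_le_iff₀ (by linarith)] at this
      linarith)
  have hSX' : S ⊆ X := hSX.trans (filter_subset _ _)
  have hinj : Set.InjOn val (S : Set (ℕ × Finset ℕ)) := by
    intro n hn n' hn' h
    obtain ⟨h1, h2⟩ := hXm n (hSX' hn)
    obtain ⟨h1', h2'⟩ := hXm n' (hSX' hn')
    exact val_inj (PP t) hPr Y hYP n n' h1 (mem_powersetCard.1 h2).1 h1'
      (mem_powersetCard.1 h2').1 h
  have hvpos : ∀ n ∈ S, t < val n := by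
    intro n hn
    have h1 := (val_bounds t Y n (hXm n (hSX' hn))).1
    have h2 : 4 ^ t ≤ (4 ^ t) ^ 273 := Nat.le_self_pow (by norm_num) _
    omega
  have hmpos : (0 : ℝ) < m := by
    rw [← hm]
    refine sum_pos (fun n hn => ?_) hSne
    have : (0 : ℝ) < val n := by exact_mod_cast (Nat.zero_le t).trans_lt (hvpos n hn)
    positivity
  have hmle : (m : ℝ) ≤ W Y := by
    rw [← hm]
    have h1 : wt S ≤ wt X := wt_mono hSX'
    have h2 : es 7 (PP t) ≤ 1 := es7_upper _ ((PP_upper t ht1).trans (by norm_num))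
    have h3 := W_nonneg Y
    have h4 : wt X ≤ W Y := by
      rw [hXw]
      nlinarith
    exact h1.trans h4
  have hm0 : 0 < m := by exact_mod_cast hmpos
  obtain ⟨m', rfl⟩ := Int.eq_ofNat_of_zero_le hm0.le
  refine ⟨i, S.image val, hSne.image _, ?_, m', by omega, ?_, ?_⟩
  · intro v hv
    obtain ⟨n, hn, rfl⟩ := mem_image.1 hv
    have := hvpos n hn
    exact ⟨by omega, (mem_filter.1 (hSX hn)).2⟩
  · have h1 : (m' : ℝ) ≤ ⌈W Y⌉₊ := by
      push_cast at hmle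
      exact hmle.trans (Nat.le_ceil _)
    exact_mod_cast h1
  · rw [sum_image hinj]
    have h1 : ((∑ n ∈ S, (1 / val n : ℚ) : ℚ) : ℝ) = ((m' : ℚ) : ℝ) := by
      push_cast
      push_cast at hm
      exact hm
    exact_mod_cast h1

end Pool.Agent.H67EF
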