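import Pool.Agent.H67EF.PartA

set_option autoImplicit false

namespace Pool.Agent.H67EF

open Finset

theorem cond_w (r w0 wD' εE : ℝ) (hr : 1 ≤ r) (h1 : 800 * r ≤ w0) (h2 : w0 - 3 ≤ wD')
    (h3 : εE ≤ 1 / 8) : (1 - 1 / (200 * r)) * w0 ≤ wD' - εE := by
  have h4 : 4 ≤ 1 / (200 * r) * w0 := by
    have : 1 / (200 * r) * (800 * r) ≤ 1 / (200 * r) * w0 :=
      mul_le_mul_of_nonneg_left h1 (by positivity)
    refine le_trans (le_of_eq ?_) this
    field_simp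
    norm_num
  linarith

theorem cond_key (r w ε η u m e4 e5 Φ β' ε' : ℝ) (hr : 1 ≤ r) (hε : ε = 1 / (200 * r))
    (hη : 0 ≤ η) (h4ε : 4 * η ≤ ε * u) (hw : 0 < w) (hu : 0 < u) (hum : u ≤ m) (he4 : 0 ≤ e4)
    (he5 : 0 < e5) (h45 : m * e4 ≤ 10 * e5) (hΦ : w * m / (168 * r) ≤ Φ) (hΦ5 : 800 ≤ Φ * e5)
    (hβ : β' ≤ 1 / 8) (hε' : ε' ≤ 1 / 8) :
    w * (ε * m + 4 * η) ^ 2 * e4 < Φ * e5 / 2 - β' - ε' := by
  have hε0 : 0 < ε := by rw [hε]; positivity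
  have hm : 0 < m := by linarith
  have h1 : ε * m + 4 * η ≤ 2 * (ε * m) := by
    have : ε * u ≤ ε * m := mul_le_mul_of_nonneg_left hum hε0.le
    linarith
  have h2 : (ε * m + 4 * η) ^ 2 ≤ (2 * (ε * m)) ^ 2 :=
    pow_le_pow_left₀ (by positivity) h1 2
  have h3 : w * (ε * m + 4 * η) ^ 2 * e4 ≤ w * (2 * (ε * m)) ^ 2 * e4 :=
    mul_le_mul_of_nonneg_right (mul_le_mul_of_nonneg_left h2 hw.le) he4
  have h5 : w * (2 * (ε * m)) ^ 2 * e4 ≤ 40 * ε ^ 2 * (w * m) * e5 := by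
    have : (4 * ε ^ 2 * (w * m)) * (m * e4) ≤ (4 * ε ^ 2 * (w * m)) * (10 * e5) :=
      mul_le_mul_of_nonneg_left h45 (by positivity)
    nlinarith
  have h6 : 160 * ε ^ 2 * (w * m) < Φ := by
    refine lt_of_lt_of_le ?_ hΦ
    have h7 : 160 * ε ^ 2 < 1 / (168 * r) := by
      have e : 160 * ε ^ 2 = 1 / (250 * r ^ 2) := by
        rw [hε]
        field_simp
        norm_num
      rw [e]
      refine one_div_lt_one_div_of_lt (by positivity) ?_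
      nlinarith
    have h8 : 0 < w * m := by positivity
    calc 160 * ε ^ 2 * (w * m) < 1 / (168 * r) * (w * m) := mul_lt_mul_of_pos_right h7 h8
      _ = w * m / (168 * r) := by ring
  have h9 : 160 * ε ^ 2 * (w * m) * e5 < Φ * e5 := mul_lt_mul_of_pos_right h6 he5
  linarith

theorem onecolor (r Y t : ℕ) (hr : 1 ≤ r) (hY : 1 ≤ Y)
    (hW : 800 * (r : ℝ) ≤
      ((1 / (53760 * (r : ℝ))) ^ 2 * ((1 / (53760 * (r : ℝ)) / 2) ^ 5 / 120)) * W Y)
    (ht : 1 ≤ t) (g : ℝ) (hgd : g = (4 : ℝ) ^ t)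
    (hg : (10 : ℝ) ^ 8 * (r : ℝ) ^ 2 * (Y : ℝ) ^ 2 ≤ g)
    (C : Finset (ℕ × Finset ℕ))
    (hC : ∀ n ∈ C, n.1 ∈ Icc 1 Y ∧ n.2 ∈ (PP t).powersetCard 7)
    (hCw : W Y * es 7 (PP t) ≤ r * wt C) :
    ∃ S ⊆ C, S.Nonempty ∧ ∃ m : ℤ, ∑ n ∈ S, (1 / val n : ℝ) = m := by
  classical
  have hr' : (1 : ℝ) ≤ r := by exact_mod_cast hr
  have hY' : (1 : ℝ) ≤ Y := by exact_mod_cast hY
  have hr2 : (r : ℝ) ≤ (r : ℝ) ^ 2 := by nlinarith
  have hY2 : (Y : ℝ) ≤ (Y : ℝ) ^ 2 := by nlinarith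
  have g1 : (10 : ℝ) ^ 8 * (r : ℝ) ^ 2 ≤ g := by
    refine le_trans ?_ hg
    exact le_mul_of_one_le_right (by positivity) (by linarith)
  have g2 : (10 : ℝ) ^ 8 * (Y : ℝ) ^ 2 ≤ g := by
    refine le_trans ?_ hg
    exact mul_le_mul_of_nonneg_right (le_mul_of_one_le_right (by positivity) (by linarith))
      (by positivity)
  have g3 : (10 : ℝ) ^ 8 ≤ g := by nlinarith
  have gone : 1 ≤ g := by nlinarith
  have gpos : 0 < g := by linarith
  have hPr : ∀ p ∈ PP t, p.Prime := fun p hp => (PP_mem hp).1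
  have hPlo : ∀ p ∈ PP t, g ^ 39 ≤ (p : ℝ) := fun p hp => by
    have h : (((4 ^ t) ^ 39 : ℕ) : ℝ) < p := by exact_mod_cast (PP_mem hp).2.1
    push_cast at h
    rw [← hgd] at h
    exact h.le
  have hPhi : ∀ p ∈ PP t, (p : ℝ) ≤ g ^ 40 := fun p hp => by
    have h : (p : ℝ) ≤ (((4 ^ t) ^ 40 : ℕ) : ℝ) := by exact_mod_cast (PP_mem hp).2.2
    push_cast at h
    rw [← hgd] at h
    exact h
  obtain ⟨ε, hε⟩ : ∃ ε : ℝ, ε = 1 / (200 * (r : ℝ)) := ⟨_, rfl⟩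
  obtain ⟨η, hη⟩ : ∃ η : ℝ, η = 1 / g ^ 39 := ⟨_, rfl⟩
  have hηP : ∀ p ∈ PP t, (1 / p : ℝ) ≤ η := fun p hp => by
    rw [hη]
    exact one_div_le_one_div_of_le (by positivity) (hPlo p hp)
  have g39 : g ≤ g ^ 39 := le_self_pow₀ gone (by norm_num)
  have hε0 : 0 < ε := by rw [hε]; positivity
  have hη0 : 0 < η := by rw [hη]; positivity
  have hη1 : η ≤ 1 / ((10 : ℝ) ^ 8 * (r : ℝ) ^ 2) := by
    rw [hη]
    exact one_div_le_one_div_of_le (by positivity) (g1.trans g39)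
  have h12 : 12 * η ≤ 1 / (53760 * (r : ℝ)) := by
    refine (mul_le_mul_of_nonneg_left hη1 (by norm_num)).trans ?_
    rw [mul_one_div, div_le_div_iff₀ (by positivity) (by positivity)]
    nlinarith
  have h4ε : 4 * η ≤ ε * (1 / (53760 * (r : ℝ))) := by
    refine (mul_le_mul_of_nonneg_left hη1 (by norm_num)).trans ?_
    rw [hε, mul_one_div, one_div_mul_one_div, div_le_div_iff₀ (by positivity) (by positivity)]
    nlinarith
  obtain ⟨V, hVP, Φ, hΦ, hes5, hwV, hext, hmuV, hmV9, hw0, hΦW, hWpos⟩ :=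
    partA r Y t hr hW ht η hη0 hηP h12 C hC hCw
  have hu0 : 0 < 1 / (53760 * (r : ℝ)) := by positivity
  have hmV : 0 < mu V := by linarith
  have hηV : ∀ p ∈ V, (1 / p : ℝ) ≤ η := fun p hp => hηP p (hVP hp)
  obtain ⟨w0, hw0d⟩ : ∃ w0 : ℝ, w0 = Φ * (mu V * es 5 V) := ⟨_, rfl⟩
  rw [← hw0d] at hw0 hwV
  have hΦes : 800 ≤ Φ * es 5 V := by
    have h1 : w0 ≤ Φ * es 5 V := by
      rw [hw0d]
      refine mul_le_mul_of_nonneg_left ?_ hΦ.le
      nlinarith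
    linarith
  -- size of the elements
  have hval : ∀ n ∈ C, g ^ 273 ≤ (val n : ℝ) ∧ (val n : ℝ) ≤ Y * g ^ 280 := by
    intro n hn
    obtain ⟨h1, h2⟩ := val_bounds t Y n (hC n hn)
    constructor
    · have h3 : (((4 ^ t) ^ 273 : ℕ) : ℝ) ≤ val n := by exact_mod_cast h1
      push_cast at h3
      rw [← hgd] at h3
      exact h3
    · have h3 : (val n : ℝ) ≤ ((Y * (4 ^ t) ^ 280 : ℕ) : ℝ) := by exact_mod_cast h2
      push_cast at h3
      rw [← hgd] at h3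
      exact h3
  have hη00 : 0 < 1 / g ^ 273 := by positivity
  have hη0C : ∀ n ∈ C, (1 / val n : ℝ) ≤ 1 / g ^ 273 := fun n hn =>
    one_div_le_one_div_of_le (by positivity) (hval n hn).1
  have hVcard : (V.card : ℝ) * (1 / g ^ 273) ≤ 1 := by
    have h1 : V.card ≤ 4 ^ (40 * t) := by
      refine (card_le_card hVP).trans ?_
      rw [PP]
      refine (card_filter_le _ _).trans ?_
      rw [Nat.card_Ioc]
      exact Nat.sub_le _ _
    have h2 : (V.card : ℝ) ≤ g ^ 40 := by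
      have : (V.card : ℝ) ≤ ((4 ^ (40 * t) : ℕ) : ℝ) := by exact_mod_cast h1
      refine this.trans (le_of_eq ?_)
      push_cast
      rw [hgd, ← pow_mul, mul_comm]
    exact (mul_le_mul_of_nonneg_right h2 hη00.le).trans (num9 g Y hY' g2)
  obtain ⟨k, hk1, hk2⟩ : ∃ k : ℤ, (k : ℝ) ≤ w0 / 2 ∧ w0 / 2 < k + 1 :=
    ⟨⌊w0 / 2⌋, Int.floor_le _, Int.lt_floor_add_one _⟩
  have hC'C : C.filter (fun n => n.2 ⊆ V) ⊆ C := filter_subset _ _
  obtain ⟨D, hDC, hDθ, hDk, hDk'⟩ := trim (C.filter (fun n => n.2 ⊆ V)) V (1 / g ^ 273)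
    (fun n hn => hη0C n (hC'C hn)) hη00.le
    (fun p => (1 / p : ℝ) * (Φ * es 5 V / 2)) (fun p _ => by positivity)
    (fun p hp => by
      have h1 := min_deg C V Φ hΦ.le (hwV.trans hw0d) p hp (hext _ ((erase_subset _ _).trans hVP))
      refine le_trans ?_ h1
      refine mul_le_mul_of_nonneg_left ?_ (by positivity)
      linarith) (2 * k : ℝ) (by rw [hwV]; linarith) (by
      rw [sum_add_distrib, ← sum_mul, sum_const, nsmul_eq_mul]
      have h1 : (∑ p ∈ V, (1 / p : ℝ)) * (Φ * es 5 V / 2) = w0 / 2 := by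
        rw [hw0d]
        unfold mu
        ring
      rw [h1]
      linarith)
  obtain ⟨D', hD'D, hB0, hR⟩ := trim2 D Y (fun n hn => (hC n (hC'C (hDC hn))).1) (1 / g ^ 273)
    (fun n hn => hη0C n (hC'C (hDC hn))) hη00.le (g ^ 42) (by positivity)
  have hD'C : D' ⊆ C := hD'D.trans (hDC.trans hC'C)
  obtain ⟨β, hβ⟩ : ∃ β : ℝ, β = Y * g ^ 42 * (1 / g ^ 273) := ⟨_, rfl⟩
  have hβ1 : g ^ 40 * β ≤ 1 / 8 := by
    rw [hβ]
    exact num1 g Y hY' g2
  rw [← hβ] at hR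
  have hβ0 : 0 ≤ β := by rw [hβ]; positivity
  have g40 : 1 ≤ g ^ 40 := one_le_pow₀ gone
  have hβ2 : β ≤ 1 / 8 := le_trans (le_mul_of_one_le_left hβ0 g40) hβ1
  have hwD' : wt D ≤ wt D' + β := by
    have h1 := hR (fun _ => True)
    simpa using h1
  have hwD'2 : wt D' ≤ wt D := wt_mono hD'D
  have hwD'1 : 1 ≤ wt D' := by linarith
  have hDne : D'.Nonempty := by
    rw [nonempty_iff_ne_empty]
    intro h
    rw [h] at hwD'1
    unfold wt at hwD'1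
    rw [sum_empty] at hwD'1
    linarith
  obtain ⟨εE, hεE⟩ : ∃ εE : ℝ, εE = (Y : ℝ) ^ 2 / (2 * g ^ 60) := ⟨_, rfl⟩
  have hLc : (((4 ^ t) ^ 194 : ℕ) : ℝ) = g ^ 194 := by
    push_cast
    rw [hgd]
  have hεEle : g ^ 41 * (Y * g ^ 280) ^ 2 / (2 * (((4 ^ t) ^ 194 : ℕ) : ℝ) ^ 2) / g ^ 273 ≤
      εE := by
    rw [hLc, hεE]
    exact num2 g Y hY' g2
  have hεE1 : g ^ 40 * εE ≤ 1 / 8 := by
    rw [hεE]
    exact num3 g Y hY' g2
  have hεE0 : 0 ≤ εE := by rw [hεE]; positivity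
  have hεE2 : εE ≤ 1 / 8 := le_trans (le_mul_of_one_le_left hεE0 g40) hεE1
  have hτ : ∀ p ∈ V, (1 / p : ℝ) * (Φ * es 5 V / 2 - g ^ 40 * β) ≤
      wt (D'.filter (fun n => p ∈ n.2)) := by
    intro p hp
    have h1 := hDθ p hp
    have h2 := hR (fun n => p ∈ n.2)
    have hp0 : (0 : ℝ) < p := by exact_mod_cast (hPr p (hVP hp)).pos
    have h3 : 1 ≤ (1 / p : ℝ) * g ^ 40 := by
      rw [one_div, inv_mul_eq_div, one_le_div hp0]
      exact hPhi p (hVP hp)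
    have h4 : β ≤ ((1 / p : ℝ) * g ^ 40) * β := le_mul_of_one_le_left hβ0 h3
    rw [mul_sub]
    rw [mul_assoc] at h4
    linarith
  have hεw : (1 - ε) * (Φ * (mu V * es 5 V)) ≤ wt D' - εE := by
    rw [← hw0d, hε]
    exact cond_w r w0 (wt D') εE hr' hw0 (by linarith) hεE2
  have hkey : W Y * (ε * mu V + 4 * η) ^ 2 * es 4 V <
      Φ * es 5 V / 2 - g ^ 40 * β - g ^ 40 * εE :=
    cond_key r (W Y) ε η (1 / (53760 * (r : ℝ))) (mu V) (es 4 V) (es 5 V) Φ _ _ hr' hε hη0.le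
      h4ε hWpos hu0 hmuV (es_nonneg 4 V) hes5 (es4_upper V η hη0.le hηV (by linarith)) hΦW hΦes
      hβ1 hεE1
  obtain ⟨_, hYg, hY8, _⟩ := num0 g Y hY' g2
  have hVY : ∀ p ∈ V, Y < p := by
    intro p hp
    have h1 := hPlo p (hVP hp)
    have : (Y : ℝ) < p := by linarith
    exact_mod_cast this
  have hG : 2 < 4 ^ t := by
    have : (2 : ℝ) < ((4 ^ t : ℕ) : ℝ) := by
      push_cast
      rw [← hgd]
      linarith
    exact_mod_cast this
  have h5' : ∀ e ∈ V.powersetCard 5, 2 * (4 ^ t) ^ 194 < ∏ p ∈ e, p := by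
    intro e he
    rw [mem_powersetCard] at he
    have h1 := (prod_bounds e ((4 ^ t) ^ 39) ((4 ^ t) ^ 40)
      fun p hp => (PP_mem (hVP (he.1 hp))).2).1
    have e1 : (((4 : ℕ) ^ t) ^ 39) ^ 5 = 4 ^ t * (4 ^ t) ^ 194 := by
      rw [← pow_mul ((4 : ℕ) ^ t) 39 5]
      exact pow_succ' _ 194
    rw [he.2, e1] at h1
    refine lt_of_lt_of_le ?_ h1
    exact Nat.mul_lt_mul_of_pos_right hG (by positivity)
  have hLM : 2 * (Y : ℝ) * (((4 ^ t) ^ 194 : ℕ) : ℝ) ≤ g ^ 273 := by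
    rw [hLc]
    exact num4 g Y hY' g2
  have hBΘ : g ^ 41 * (2 * (Y : ℝ) ^ 2) ≤ g ^ 42 := num5 g Y hY' g2
  have hΘ := log_lcm t Y D' (fun n hn => hC n (hD'C hn)) (by rw [← hgd]; linarith)
    (by rw [← hgd]; exact g3)
  rw [← hgd] at hΘ
  obtain ⟨hlcm0, _⟩ := lcm_bound t Y D' (fun n hn => hC n (hD'C hn))
  have hmin : ∀ h : ℤ, 2 * |(h : ℝ)| ≤ (D'.lcm val : ℕ) → (((4 ^ t) ^ 194 : ℕ) : ℝ) < |(h : ℝ)| →
      Real.log (4 * (D'.lcm val : ℕ)) ≤ ∑ n ∈ D', 2 * nd (h / val n) ^ 2 := by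
    intro h hh hL
    by_contra hcon
    push Not at hcon
    have := minor Y V (fun p hp => hPr p (hVP hp)) hVY C D'
      (fun n hn => ⟨(hC n hn).1, (mem_powersetCard.1 (hC n hn).2).2⟩) (hD'D.trans hDC) Φ hΦ
      (fun Q hQ => hext Q (hQ.trans hVP)) hes5 ((4 ^ t) ^ 194) (by positivity) h5'
      (Y * g ^ 280) (g ^ 273) (by positivity) (fun n hn => (hval n (hD'C hn)).2)
      (fun n hn => (hval n (hD'C hn)).1) hLM (g ^ 41) εE hεEle ε hεw _ hτ η (g ^ 40) hηV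
      (fun p hp => hPhi p (hVP hp)) hkey (g ^ 42) hB0 hBΘ hDne h hh (hcon.trans_le hΘ)
    exact absurd this (not_le.2 hL)
  have hcard1 : g ^ 273 ≤ D'.card := by
    have h1 : wt D' ≤ D'.card * (1 / g ^ 273) := by
      unfold wt
      rw [← nsmul_eq_mul]
      exact sum_le_card_nsmul _ _ _ fun n hn => hη0C n (hD'C hn)
    rw [mul_one_div] at h1
    have h2 : 1 ≤ (D'.card : ℝ) / g ^ 273 := hwD'1.trans h1
    rwa [one_le_div (by positivity)] at h2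
  have hcard : (2 * (D'.lcm val : ℕ) : ℝ) ≤ 2 ^ D'.card := by
    have h0 : (0 : ℝ) < (D'.lcm val : ℕ) := by exact_mod_cast hlcm0
    have h1 : (4 * (D'.lcm val : ℕ) : ℝ) ≤ Real.exp (g ^ 41) := by
      rwa [Real.log_le_iff_le_exp (by positivity)] at hΘ
    have h2 : Real.exp (1 / 2) ≤ 2 := by
      have h3 : Real.exp (1 / 2) ^ 2 = Real.exp 1 := by
        rw [← Real.exp_nat_mul]
        norm_num
      have h4 := Real.exp_one_lt_d9
      have h5 := Real.exp_pos (1 / 2)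
      nlinarith
    have h3 : Real.exp (g ^ 41) ≤ 2 ^ D'.card := by
      calc Real.exp (g ^ 41) ≤ Real.exp (D'.card * (1 / 2)) := by
            apply Real.exp_le_exp.2
            have := num6 g Y hY' g2
            linarith
        _ = Real.exp (1 / 2) ^ D'.card := by rw [← Real.exp_nat_mul]
        _ ≤ 2 ^ D'.card := pow_le_pow_left₀ (Real.exp_pos _).le h2 _
    linarith
  obtain ⟨S, hSD, hSne, m, hm⟩ := fourier D' val (D'.lcm val) (fun n hn => dvd_lcm hn) hlcm0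
    (((4 ^ t) ^ 194 : ℕ) : ℝ) (by positivity) (fun n hn => by
      rw [hLc]
      exact (num7 g Y hY' g2).trans_le (hval n (hD'C hn)).1) (fun n hn => by
      have h1 := (hval n (hD'C hn)).1
      have h2 : (0 : ℝ) < val n := lt_of_lt_of_le (by positivity) h1
      exact_mod_cast h2) k (by
      have h1 : |∑ n ∈ D', (1 / val n : ℝ) - 2 * k| ≤ β + 1 / g ^ 273 := by
        have : ∑ n ∈ D', (1 / val n : ℝ) = wt D' := rfl
        rw [this, abs_le]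
        constructor <;> linarith
      refine (mul_le_mul_of_nonneg_right h1 (by positivity)).trans ?_
      rw [hLc, hβ]
      exact num8 g Y hY' g2) hmin hcard
  exact ⟨S, hSD.trans hD'C, hSne, m, hm⟩

end Pool.Agent.H67EF
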