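import Mathlib

set_option autoImplicit false

namespace Pool.Agent.H67EF

open Finset

/-- Elementary symmetric sums of the reciprocals. -/
noncomputable def es (k : ℕ) (V : Finset ℕ) : ℝ := ∑ e ∈ V.powersetCard k, ∏ p ∈ e, (1 / p : ℝ)

/-- Sum of the reciprocals. -/
noncomputable def mu (V : Finset ℕ) : ℝ := ∑ p ∈ V, (1 / p : ℝ)

theorem prod_nonneg' (e : Finset ℕ) : 0 ≤ ∏ p ∈ e, (1 / p : ℝ) :=
  Finset.prod_nonneg fun p _ => by positivity

theorem es_nonneg (k : ℕ) (V : Finset ℕ) : 0 ≤ es k V :=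
  Finset.sum_nonneg fun e _ => prod_nonneg' e

theorem mu_nonneg (V : Finset ℕ) : 0 ≤ mu V := Finset.sum_nonneg fun p _ => by positivity

theorem mu_mono {V W : Finset ℕ} (h : V ⊆ W) : mu V ≤ mu W :=
  Finset.sum_le_sum_of_subset_of_nonneg h fun p _ _ => by positivity

theorem es_mono (k : ℕ) {V W : Finset ℕ} (h : V ⊆ W) : es k V ≤ es k W :=
  Finset.sum_le_sum_of_subset_of_nonneg (Finset.powersetCard_mono h) fun e _ _ => prod_nonneg' e

theorem es_succ (k : ℕ) (V : Finset ℕ) : ((k + 1 : ℕ) : ℝ) * es (k + 1) V =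
    ∑ e ∈ V.powersetCard k, (∏ p ∈ e, (1 / p : ℝ)) * ∑ p ∈ V \ e, (1 / p : ℝ) := by
  have h1 : ((k + 1 : ℕ) : ℝ) * es (k + 1) V =
      ∑ e ∈ V.powersetCard (k + 1), ∑ _p ∈ e, ∏ q ∈ e, (1 / q : ℝ) := by
    unfold es
    rw [mul_sum]
    refine sum_congr rfl fun e he => ?_
    rw [sum_const, (mem_powersetCard.1 he).2, nsmul_eq_mul]
  rw [h1]
  simp_rw [mul_sum]
  rw [sum_sigma', sum_sigma']
  refine sum_bij' (fun x _ => ⟨x.1.erase x.2, x.2⟩) (fun x _ => ⟨insert x.2 x.1, x.2⟩)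
    ?_ ?_ ?_ ?_ ?_
  · rintro ⟨e, p⟩ h
    simp only [mem_sigma, mem_powersetCard] at h ⊢
    obtain ⟨⟨h2, h3⟩, h4⟩ := h
    refine ⟨⟨(erase_subset _ _).trans h2, ?_⟩, ?_⟩
    · rw [card_erase_of_mem h4, h3]; rfl
    · simp [h2 h4]
  · rintro ⟨e, p⟩ h
    simp only [mem_sigma, mem_powersetCard, mem_sdiff] at h ⊢
    obtain ⟨⟨h2, h3⟩, h4, h5⟩ := h
    refine ⟨⟨?_, ?_⟩, mem_insert_self _ _⟩
    · intro q hq
      rcases mem_insert.1 hq with rfl | hq
      · exact h4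
      · exact h2 hq
    · rw [card_insert_of_notMem h5, h3]
  · rintro ⟨e, p⟩ h
    simp only [mem_sigma, mem_powersetCard] at h
    simp only [Sigma.mk.injEq, heq_eq_eq, and_true]
    exact insert_erase h.2
  · rintro ⟨e, p⟩ h
    simp only [mem_sigma, mem_powersetCard, mem_sdiff] at h
    simp only [Sigma.mk.injEq, heq_eq_eq, and_true]
    exact erase_insert h.2.2
  · rintro ⟨e, p⟩ h
    simp only [mem_sigma, mem_powersetCard] at h
    show ∏ q ∈ e, (1 / q : ℝ) = (∏ q ∈ e.erase p, (1 / q : ℝ)) * (1 / p : ℝ)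
    rw [mul_comm, mul_prod_erase e (fun q => (1 / q : ℝ)) h.2]

theorem es_succ_le (k : ℕ) (V : Finset ℕ) : es (k + 1) V ≤ mu V * es k V := by
  have h1 := es_succ k V
  have h2 : ∑ e ∈ V.powersetCard k, (∏ p ∈ e, (1 / p : ℝ)) * ∑ p ∈ V \ e, (1 / p : ℝ) ≤
      mu V * es k V := by
    unfold es
    rw [mul_sum]
    refine sum_le_sum fun e _ => ?_
    rw [mul_comm]
    exact mul_le_mul_of_nonneg_right (mu_mono sdiff_subset) (prod_nonneg' e)
  have h3 : (1 : ℝ) * es (k + 1) V ≤ ((k + 1 : ℕ) : ℝ) * es (k + 1) V := by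
    refine mul_le_mul_of_nonneg_right ?_ (es_nonneg _ _)
    exact_mod_cast Nat.le_add_left 1 k
  linarith

theorem le_es_succ (k : ℕ) (V : Finset ℕ) (η : ℝ) (hη : ∀ p ∈ V, (1 / p : ℝ) ≤ η) :
    (mu V - k * η) * es k V ≤ ((k + 1 : ℕ) : ℝ) * es (k + 1) V := by
  rw [es_succ]
  unfold es
  rw [mul_sum]
  refine sum_le_sum fun e he => ?_
  rw [mem_powersetCard] at he
  rw [mul_comm]
  refine mul_le_mul_of_nonneg_left ?_ (prod_nonneg' e)
  have h1 : ∑ p ∈ V \ e, (1 / p : ℝ) + ∑ p ∈ e, (1 / p : ℝ) = mu V := sum_sdiff he.1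
  have h2 : ∑ p ∈ e, (1 / p : ℝ) ≤ k * η := by
    rw [← he.2, ← nsmul_eq_mul]
    exact sum_le_card_nsmul _ _ _ fun p hp => hη p (he.1 hp)
  linarith

theorem es_sum_le (k : ℕ) (V : Finset ℕ) (I : Finset ℤ) (Q : ℤ → Finset ℕ) (hQ : ∀ x ∈ I, Q x ⊆ V)
    (hu : ∀ e ∈ V.powersetCard k, ∀ x ∈ I, ∀ x' ∈ I, e ⊆ Q x → e ⊆ Q x' → x = x') :
    ∑ x ∈ I, es k (Q x) ≤ es k V := by
  unfold es
  rw [← sum_biUnion]
  · refine sum_le_sum_of_subset_of_nonneg ?_ fun e _ _ => prod_nonneg' e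
    intro e he
    rw [mem_biUnion] at he
    obtain ⟨x, hx, he⟩ := he
    exact powersetCard_mono (hQ x hx) he
  · intro x hx x' hx' hne
    rw [Function.onFun, disjoint_left]
    intro e he he'
    rw [mem_powersetCard] at he he'
    refine hne (hu e ?_ x hx x' hx' he.1 he'.1)
    rw [mem_powersetCard]
    exact ⟨he.1.trans (hQ x hx), he.2⟩

/-- The value. -/
def val (n : ℕ × Finset ℕ) : ℕ := n.1 * ∏ p ∈ n.2, p

/-- The weight. -/
noncomputable def wt (D : Finset (ℕ × Finset ℕ)) : ℝ := ∑ n ∈ D, (1 / val n : ℝ)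

theorem wt_nonneg (D : Finset (ℕ × Finset ℕ)) : 0 ≤ wt D := sum_nonneg fun n _ => by positivity

theorem wt_mono {C D : Finset (ℕ × Finset ℕ)} (h : C ⊆ D) : wt C ≤ wt D :=
  sum_le_sum_of_subset_of_nonneg h fun n _ _ => by positivity

theorem wt_prod (B : Finset ℕ) (k : ℕ) (V : Finset ℕ) :
    wt (B ×ˢ V.powersetCard k) = (∑ b ∈ B, (1 / b : ℝ)) * es k V := by
  unfold wt es
  rw [sum_product, sum_mul_sum]
  refine sum_congr rfl fun b _ => sum_congr rfl fun e _ => ?_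
  unfold val
  push_cast
  rw [one_div, mul_inv, one_div]
  congr 1
  rw [← prod_inv_distrib]
  exact prod_congr rfl fun p _ => (one_div _).symm

theorem wt_le_prod (B : Finset ℕ) (k : ℕ) (V : Finset ℕ) (C : Finset (ℕ × Finset ℕ))
    (h : ∀ n ∈ C, n.1 ∈ B ∧ n.2 ∈ V.powersetCard k) : wt C ≤ (∑ b ∈ B, (1 / b : ℝ)) * es k V := by
  rw [← wt_prod]
  refine wt_mono fun n hn => ?_
  rw [mem_product]
  exact h n hn

/-- Elements containing a given prime. -/
theorem wt_le_prod_mem (B : Finset ℕ) (k : ℕ) (V : Finset ℕ) (p : ℕ) (C : Finset (ℕ × Finset ℕ))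
    (h : ∀ n ∈ C, n.1 ∈ B ∧ p ∈ n.2 ∧ n.2.erase p ∈ (V.erase p).powersetCard k) :
    wt C ≤ (1 / p : ℝ) * ((∑ b ∈ B, (1 / b : ℝ)) * es k (V.erase p)) := by
  rw [← wt_prod]
  have h1 : ∀ n ∈ C, (1 / val n : ℝ) = (1 / p : ℝ) * (1 / val (n.1, n.2.erase p) : ℝ) := by
    intro n hn
    have h2 := mul_prod_erase n.2 (fun q => q) (h n hn).2.1
    have h3 : val n = p * val (n.1, n.2.erase p) := by
      unfold val
      simp only
      rw [← h2]
      ring
    rw [h3]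
    push_cast
    rw [one_div, mul_inv, one_div, one_div]
  unfold wt
  rw [sum_congr rfl h1, ← mul_sum]
  refine mul_le_mul_of_nonneg_left ?_ (by positivity)
  have hinj : Set.InjOn (fun n : ℕ × Finset ℕ => (n.1, n.2.erase p)) C := by
    intro n hn n' hn' e
    simp only [Prod.mk.injEq] at e
    refine Prod.ext e.1 ?_
    rw [← insert_erase (h n hn).2.1, ← insert_erase (h n' hn').2.1, e.2]
  rw [← sum_image (f := fun m => (1 / val m : ℝ)) hinj]
  refine sum_le_sum_of_subset_of_nonneg ?_ fun n _ _ => by positivity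
  intro m hm
  rw [mem_image] at hm
  obtain ⟨n, hn, rfl⟩ := hm
  rw [mem_product]
  exact ⟨(h n hn).1, (h n hn).2.2⟩

end Pool.Agent.H67EF
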