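import Pool.Agent.H67EF.Es

set_option autoImplicit false

namespace Pool.Agent.H67EF

open Finset

theorem wt_erase (D : Finset (ℕ × Finset ℕ)) (n : ℕ × Finset ℕ) (hn : n ∈ D) :
    wt (D.erase n) = wt D - 1 / val n := by
  unfold wt
  rw [← add_sum_erase D _ hn]
  ring

theorem wt_union_le (A B : Finset (ℕ × Finset ℕ)) : wt (A ∪ B) ≤ wt A + wt B := by
  unfold wt
  rw [← sum_union_inter]
  have : (0 : ℝ) ≤ ∑ i ∈ A ∩ B, (1 / val i : ℝ) := sum_nonneg fun _ _ => by positivity
  linarith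

theorem wt_biUnion_le {α : Type*} [DecidableEq α] (s : Finset α)
    (t : α → Finset (ℕ × Finset ℕ)) : wt (s.biUnion t) ≤ ∑ a ∈ s, wt (t a) := by
  induction s using Finset.induction_on with
  | empty => simp [wt]
  | insert a s ha ih =>
    rw [biUnion_insert, sum_insert ha]
    exact (wt_union_le _ _).trans (by linarith)

theorem trim (C : Finset (ℕ × Finset ℕ)) (V : Finset ℕ) (η0 : ℝ)
    (hη : ∀ n ∈ C, (1 / val n : ℝ) ≤ η0) (hη0 : 0 ≤ η0) (θ : ℕ → ℝ) (hθ0 : ∀ p ∈ V, 0 ≤ θ p)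
    (hθ : ∀ p ∈ V, θ p ≤ wt (C.filter (fun n => p ∈ n.2))) (k : ℝ) (hk : k ≤ wt C)
    (hbig : ∑ p ∈ V, (θ p + η0) < k) :
    ∃ D ⊆ C, (∀ p ∈ V, θ p ≤ wt (D.filter (fun n => p ∈ n.2))) ∧ k ≤ wt D ∧ wt D < k + η0 := by
  classical
  set S := C.powerset.filter (fun D => (∀ p ∈ V, θ p ≤ wt (D.filter (fun n => p ∈ n.2))) ∧
    k ≤ wt D) with hS
  obtain ⟨D, hD, hmin⟩ := exists_min_image S card ⟨C, by
    rw [hS, mem_filter, mem_powerset]
    exact ⟨Subset.refl _, hθ, hk⟩⟩
  rw [hS, mem_filter, mem_powerset] at hD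
  obtain ⟨hDC, hD1, hD2⟩ := hD
  refine ⟨D, hDC, hD1, hD2, ?_⟩
  by_contra hcon
  push Not at hcon
  have hbad : ∀ n ∈ D, ∃ p ∈ V, p ∈ n.2 ∧ wt (D.filter (fun n => p ∈ n.2)) < θ p + η0 := by
    intro n hn
    by_contra hno
    push Not at hno
    have h1 : D.erase n ∈ S := by
      rw [hS, mem_filter, mem_powerset]
      refine ⟨(erase_subset _ _).trans hDC, fun p hp => ?_, ?_⟩
      · by_cases hpn : p ∈ n.2
        · have h2 := hno p hp hpn
          rw [filter_erase, wt_erase _ _ (mem_filter.2 ⟨hn, hpn⟩)]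
          have := hη n (hDC hn)
          linarith
        · have h2 : (D.erase n).filter (fun n => p ∈ n.2) = D.filter (fun n => p ∈ n.2) := by
            rw [filter_erase]
            refine erase_eq_of_notMem fun h => hpn (mem_filter.1 h).2
          rw [h2]
          exact hD1 p hp
      · rw [wt_erase _ _ hn]
        have := hη n (hDC hn)
        linarith
    have h2 := hmin _ h1
    rw [card_erase_of_mem hn] at h2
    have := card_pos.2 ⟨n, hn⟩
    omega
  have h1 : wt D ≤ ∑ p ∈ V, (θ p + η0) := by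
    set V' := V.filter (fun p => wt (D.filter (fun n => p ∈ n.2)) < θ p + η0) with hV'
    have h2 : D ⊆ V'.biUnion (fun p => D.filter (fun n => p ∈ n.2)) := by
      intro n hn
      obtain ⟨p, hp, hpn, hlt⟩ := hbad n hn
      rw [mem_biUnion]
      exact ⟨p, mem_filter.2 ⟨hp, hlt⟩, mem_filter.2 ⟨hn, hpn⟩⟩
    have h3 : wt D ≤ ∑ p ∈ V', wt (D.filter (fun n => p ∈ n.2)) := by
      exact (wt_mono h2).trans (wt_biUnion_le _ _)
    refine h3.trans ?_
    refine (sum_le_sum (g := fun p => θ p + η0) fun p hp => (mem_filter.1 hp).2.le).trans ?_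
    refine sum_le_sum_of_subset_of_nonneg (filter_subset _ _) fun p hp _ => ?_
    have := hθ0 p hp
    linarith
  linarith

/-- dropping the rare `b` -/
theorem trim2 (D : Finset (ℕ × Finset ℕ)) (Y : ℕ) (hD : ∀ n ∈ D, n.1 ∈ Icc 1 Y) (η0 : ℝ)
    (hη : ∀ n ∈ D, (1 / val n : ℝ) ≤ η0) (hη0 : 0 ≤ η0) (B0 : ℝ) (hB0 : 0 ≤ B0) :
    ∃ D' ⊆ D, (∀ n ∈ D', B0 ≤ (D'.filter (fun m => m.1 = n.1)).card) ∧
      ∀ (R : ℕ × Finset ℕ → Prop) [DecidablePred R],
        wt (D.filter R) ≤ wt (D'.filter R) + Y * B0 * η0 := by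
  classical
  set D' := D.filter (fun n => B0 ≤ (D.filter (fun m => m.1 = n.1)).card) with hD'
  refine ⟨D', filter_subset _ _, ?_, ?_⟩
  · intro n hn
    have hn2 := (mem_filter.1 hn).2
    have : D'.filter (fun m => m.1 = n.1) = D.filter (fun m => m.1 = n.1) := by
      ext m
      rw [mem_filter, mem_filter, mem_filter]
      constructor
      · rintro ⟨⟨h1, _⟩, h3⟩
        exact ⟨h1, h3⟩
      · rintro ⟨h1, h3⟩
        refine ⟨⟨h1, ?_⟩, h3⟩
        rw [h3]
        exact hn2
    rw [this]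
    exact hn2
  · intro R _
    set Z := (Icc 1 Y).filter (fun b => ((D.filter (fun m => m.1 = b)).card : ℝ) < B0) with hZ
    have h1 : D.filter R ⊆ D'.filter R ∪ Z.biUnion (fun b => D.filter (fun m => m.1 = b)) := by
      intro n hn
      rw [mem_filter] at hn
      rw [mem_union]
      by_cases h2 : B0 ≤ (D.filter (fun m => m.1 = n.1)).card
      · left
        rw [mem_filter, hD', mem_filter]
        exact ⟨⟨hn.1, h2⟩, hn.2⟩
      · right
        rw [mem_biUnion]
        push Not at h2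
        exact ⟨n.1, mem_filter.2 ⟨hD n hn.1, h2⟩, mem_filter.2 ⟨hn.1, rfl⟩⟩
    have h2 : wt (Z.biUnion (fun b => D.filter (fun m => m.1 = b))) ≤ Y * B0 * η0 := by
      have h3 : wt (Z.biUnion (fun b => D.filter (fun m => m.1 = b))) ≤
          ∑ b ∈ Z, wt (D.filter (fun m => m.1 = b)) := by
        exact wt_biUnion_le _ _
      refine h3.trans ?_
      have h4 : ∀ b ∈ Z, wt (D.filter (fun m => m.1 = b)) ≤ B0 * η0 := by
        intro b hb
        have h5 := (mem_filter.1 hb).2
        have h6 : wt (D.filter (fun m => m.1 = b)) ≤ (D.filter (fun m => m.1 = b)).card * η0 := by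
          unfold wt
          rw [← nsmul_eq_mul]
          exact sum_le_card_nsmul _ _ _ fun n hn => hη n (mem_of_mem_filter n hn)
        exact h6.trans (mul_le_mul_of_nonneg_right h5.le hη0)
      have h5 := sum_le_card_nsmul _ _ _ h4
      rw [nsmul_eq_mul] at h5
      refine h5.trans ?_
      have h6 : (Z.card : ℝ) ≤ Y := by
        have : Z.card ≤ (Icc 1 Y).card := card_le_card (filter_subset _ _)
        rw [Nat.card_Icc, Nat.add_sub_cancel] at this
        exact_mod_cast this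
      rw [mul_assoc]
      exact mul_le_mul_of_nonneg_right h6 (mul_nonneg hB0 hη0)
    refine (wt_mono h1).trans ?_
    have h3 : wt (D'.filter R ∪ Z.biUnion (fun b => D.filter (fun m => m.1 = b))) ≤
        wt (D'.filter R) + wt (Z.biUnion (fun b => D.filter (fun m => m.1 = b))) := by
      unfold wt
      rw [← sum_union_inter]
      have : (0 : ℝ) ≤ ∑ i ∈ D'.filter R ∩ Z.biUnion (fun b => D.filter (fun m => m.1 = b)),
        (1 / val i : ℝ) := sum_nonneg fun _ _ => by positivity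
      linarith
    linarith

end Pool.Agent.H67EF
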