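import Pool.Agent.H67EF.Minor
import Pool.Agent.H67EF.Trim

set_option autoImplicit false

namespace Pool.Agent.H67EF

open Finset

theorem wt_cl_le' (Y : ℕ) (P Q : Finset ℕ) (C : Finset (ℕ × Finset ℕ))
    (hC : ∀ n ∈ C, n.1 ∈ Icc 1 Y ∧ n.2 ∈ P.powersetCard 7) :
    wt (C.filter (fun n => n.2 ⊆ Q)) ≤ W Y * es 7 Q := by
  refine wt_le_prod (Icc 1 Y) 7 Q _ fun n hn => ?_
  rw [mem_filter] at hn
  exact ⟨(hC n hn.1).1, mem_powersetCard.2 ⟨hn.2, (mem_powersetCard.1 (hC n hn.1).2).2⟩⟩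

theorem wt_cl_le (Y : ℕ) (P Q : Finset ℕ) (C : Finset (ℕ × Finset ℕ))
    (hC : ∀ n ∈ C, n.1 ∈ Icc 1 Y ∧ n.2 ∈ P.powersetCard 7) :
    wt (C.filter (fun n => n.2 ⊆ Q)) ≤ W Y * mu Q * (mu Q * es 5 Q) := by
  have h1 := wt_cl_le' Y P Q C hC
  have h2 := es_succ_le 6 Q
  have h3 := es_succ_le 5 Q
  have h4 : es 7 Q ≤ mu Q * (mu Q * es 5 Q) :=
    h2.trans (mul_le_mul_of_nonneg_left h3 (mu_nonneg Q))
  have h5 := mul_le_mul_of_nonneg_left h4 (W_nonneg Y)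
  refine h1.trans (h5.trans (le_of_eq ?_))
  ring

theorem exists_V (Y : ℕ) (P : Finset ℕ) (C : Finset (ℕ × Finset ℕ))
    (hC : ∀ n ∈ C, n.1 ∈ Icc 1 Y ∧ n.2 ∈ P.powersetCard 7) (δ : ℝ) (hδ : 0 < δ)
    (hpos : 0 < mu P * es 5 P) (hd : δ * (mu P * es 5 P) ≤ wt C) :
    ∃ V ⊆ P, ∃ Φ : ℝ, δ ≤ Φ ∧ 0 < mu V ∧ 0 < es 5 V ∧
      wt (C.filter (fun n => n.2 ⊆ V)) = Φ * (mu V * es 5 V) ∧
      ∀ Q ⊆ P, wt (C.filter (fun n => n.2 ⊆ Q)) ≤ Φ * (mu Q * es 5 Q) := by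
  obtain ⟨V, hV, hmax⟩ := exists_max_image P.powerset
    (fun Q => wt (C.filter (fun n => n.2 ⊆ Q)) / (mu Q * es 5 Q)) ⟨P, mem_powerset_self P⟩
  rw [mem_powerset] at hV
  set Φ := wt (C.filter (fun n => n.2 ⊆ V)) / (mu V * es 5 V) with hΦ
  have h1 : δ ≤ Φ := by
    refine le_trans ?_ (hmax P (mem_powerset_self P))
    rw [le_div_iff₀ hpos]
    have : C.filter (fun n => n.2 ⊆ P) = C :=
      filter_true_of_mem fun n hn => (mem_powersetCard.1 (hC n hn).2).1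
    rw [this]
    exact hd
  have h2 : mu V * es 5 V ≠ 0 := by
    intro h
    rw [hΦ, h, div_zero] at h1
    linarith
  have h3 : mu V ≠ 0 := left_ne_zero_of_mul h2
  have h4 : es 5 V ≠ 0 := right_ne_zero_of_mul h2
  refine ⟨V, hV, Φ, h1, lt_of_le_of_ne (mu_nonneg V) h3.symm,
    lt_of_le_of_ne (es_nonneg 5 V) h4.symm, ?_, ?_⟩
  · rw [hΦ, div_mul_cancel₀ _ h2]
  · intro Q hQ
    by_cases h5 : mu Q * es 5 Q = 0
    · have := wt_cl_le Y P Q C hC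
      rw [h5, mul_zero] at this
      rw [h5, mul_zero]
      exact this
    · have h6 : 0 < mu Q * es 5 Q :=
        lt_of_le_of_ne (mul_nonneg (mu_nonneg Q) (es_nonneg 5 Q)) (Ne.symm h5)
      exact (div_le_iff₀ h6).1 (hmax Q (mem_powerset.2 hQ))

theorem min_deg (C : Finset (ℕ × Finset ℕ)) (V : Finset ℕ) (Φ : ℝ) (hΦ : 0 ≤ Φ)
    (hV : wt (C.filter (fun n => n.2 ⊆ V)) = Φ * (mu V * es 5 V)) (p : ℕ) (hp : p ∈ V)
    (hext : wt (C.filter (fun n => n.2 ⊆ V.erase p)) ≤ Φ * (mu (V.erase p) * es 5 (V.erase p))) :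
    (1 / p : ℝ) * (Φ * es 5 V) ≤
      wt ((C.filter (fun n => n.2 ⊆ V)).filter (fun n => p ∈ n.2)) := by
  have h1 : wt ((C.filter (fun n => n.2 ⊆ V)).filter (fun n => p ∈ n.2)) +
      wt ((C.filter (fun n => n.2 ⊆ V)).filter (fun n => ¬ p ∈ n.2)) =
      wt (C.filter (fun n => n.2 ⊆ V)) := by
    unfold wt
    exact sum_filter_add_sum_filter_not _ _ _
  have h2 : (C.filter (fun n => n.2 ⊆ V)).filter (fun n => ¬ p ∈ n.2) =
      C.filter (fun n => n.2 ⊆ V.erase p) := by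
    ext n
    simp only [mem_filter, subset_erase]
    tauto
  rw [h2, hV] at h1
  have h3 : mu (V.erase p) = mu V - 1 / p := by
    unfold mu
    rw [← add_sum_erase V _ hp]
    ring
  have h4 : es 5 (V.erase p) ≤ es 5 V := es_mono 5 (erase_subset _ _)
  have h5 : Φ * (mu (V.erase p) * es 5 (V.erase p)) ≤ Φ * ((mu V - 1 / p) * es 5 V) := by
    refine mul_le_mul_of_nonneg_left ?_ hΦ
    rw [← h3]
    exact mul_le_mul_of_nonneg_left h4 (mu_nonneg _)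
  nlinarith

theorem es_zero (V : Finset ℕ) : es 0 V = 1 := by
  unfold es
  rw [powersetCard_zero, sum_singleton, prod_empty]

theorem es_step (k : ℕ) (hk : k ≤ 6) (V : Finset ℕ) (η : ℝ) (hη0 : 0 ≤ η)
    (hη : ∀ p ∈ V, (1 / p : ℝ) ≤ η) (h12 : 12 * η ≤ mu V) :
    mu V / 2 * es k V ≤ ((k + 1 : ℕ) : ℝ) * es (k + 1) V := by
  refine le_trans (mul_le_mul_of_nonneg_right ?_ (es_nonneg k V)) (le_es_succ k V η hη)
  have : (k : ℝ) ≤ 6 := by exact_mod_cast hk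
  nlinarith

theorem es5_lower (V : Finset ℕ) (η : ℝ) (hη0 : 0 ≤ η)
    (hη : ∀ p ∈ V, (1 / p : ℝ) ≤ η) (h12 : 12 * η ≤ mu V) :
    (mu V / 2) ^ 5 / 120 ≤ es 5 V := by
  have h0 := es_zero V
  have h1 := es_step 0 (by norm_num) V η hη0 hη h12
  have h2 := es_step 1 (by norm_num) V η hη0 hη h12
  have h3 := es_step 2 (by norm_num) V η hη0 hη h12
  have h4 := es_step 3 (by norm_num) V η hη0 hη h12
  have h5 := es_step 4 (by norm_num) V η hη0 hη h12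
  norm_num at h1 h2 h3 h4 h5
  have hm := mu_nonneg V
  set m := mu V / 2 with hmm
  have hm0 : 0 ≤ m := by positivity
  rw [h0, mul_one] at h1
  have g2 : m ^ 2 ≤ 2 * es 2 V := by nlinarith
  have g3 : m ^ 3 ≤ 6 * es 3 V := by nlinarith
  have g4 : m ^ 4 ≤ 24 * es 4 V := by nlinarith
  have g5 : m ^ 5 ≤ 120 * es 5 V := by nlinarith
  linarith

theorem es7_lower (V : Finset ℕ) (η : ℝ) (hη0 : 0 ≤ η)
    (hη : ∀ p ∈ V, (1 / p : ℝ) ≤ η) (h12 : 12 * η ≤ mu V) :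
    mu V ^ 2 / 168 * es 5 V ≤ es 7 V := by
  have h6 := es_step 5 (by norm_num) V η hη0 hη h12
  have h7 := es_step 6 (by norm_num) V η hη0 hη h12
  norm_num at h6 h7
  have hm := mu_nonneg V
  nlinarith

theorem es4_upper (V : Finset ℕ) (η : ℝ) (hη0 : 0 ≤ η)
    (hη : ∀ p ∈ V, (1 / p : ℝ) ≤ η) (h12 : 12 * η ≤ mu V) :
    mu V * es 4 V ≤ 10 * es 5 V := by
  have h5 := es_step 4 (by norm_num) V η hη0 hη h12
  norm_num at h5
  linarith

theorem es7_upper (V : Finset ℕ) (h1 : mu V ≤ 1) : es 7 V ≤ 1 := by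
  have h : ∀ k, es k V ≤ 1 := by
    intro k
    induction k with
    | zero => exact (es_zero V).le
    | succ k ih =>
      refine (es_succ_le k V).trans ?_
      have := mu_nonneg V
      have := es_nonneg k V
      nlinarith
  exact h 7

end Pool.Agent.H67EF
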