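import Mathlib

set_option autoImplicit false

namespace Pool.Agent.H67EF

open Finset

/-- Distance to the nearest integer. -/
noncomputable def nd (t : ℝ) : ℝ := |t - round t|

theorem nd_le_half (t : ℝ) : nd t ≤ 1 / 2 := abs_sub_round t

theorem nd_nonneg (t : ℝ) : 0 ≤ nd t := abs_nonneg _

theorem abs_cos_le (t : ℝ) : |Real.cos (Real.pi * t)| ≤ Real.exp (-(2 * nd t ^ 2)) := by
  have h1 : Real.cos (Real.pi * t) ^ 2 = Real.cos (Real.pi * nd t) ^ 2 := by
    have e : Real.pi * t = Real.pi * (t - round t) + (round t : ℤ) * Real.pi := by ring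
    have h2 : Real.cos (Real.pi * t) ^ 2 = Real.cos (Real.pi * (t - round t)) ^ 2 := by
      rw [e, Real.cos_add_int_mul_pi, mul_pow]
      have : ((-1 : ℝ) ^ (round t)) ^ 2 = 1 := by
        rw [← zpow_natCast, ← zpow_mul, mul_comm, zpow_mul]
        norm_num
      rw [this, one_mul]
    rw [h2]
    unfold nd
    rcases abs_cases (t - round t) with ⟨h, _⟩ | ⟨h, _⟩
    · rw [h]
    · rw [h, mul_neg, Real.cos_neg]
  have h2 : 2 * nd t ≤ Real.sin (Real.pi * nd t) := by
    have := Real.mul_le_sin (x := Real.pi * nd t) (by have := nd_nonneg t; positivity) (by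
      have := nd_le_half t
      have := Real.pi_pos
      nlinarith)
    have e : 2 / Real.pi * (Real.pi * nd t) = 2 * nd t := by
      field_simp
    rwa [e] at this
  have h3 : Real.cos (Real.pi * t) ^ 2 ≤ 1 - 4 * nd t ^ 2 := by
    rw [h1]
    have h4 := Real.sin_sq_add_cos_sq (Real.pi * nd t)
    have h5 := nd_nonneg t
    nlinarith
  have h4 : 1 - 4 * nd t ^ 2 ≤ Real.exp (-(4 * nd t ^ 2)) := by
    have := Real.add_one_le_exp (-(4 * nd t ^ 2))
    linarith
  have h5 : |Real.cos (Real.pi * t)| ^ 2 ≤ Real.exp (-(2 * nd t ^ 2)) ^ 2 := by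
    rw [sq_abs, ← Real.exp_nat_mul]
    refine h3.trans (h4.trans (le_of_eq ?_))
    congr 1
    push_cast
    ring
  exact abs_le_of_sq_le_sq' h5 (Real.exp_pos _).le |>.2 |> fun h => by
    simpa using h

theorem one_add_exp (θ : ℝ) : (1 : ℂ) + Complex.exp (2 * Real.pi * Complex.I * θ) =
    ((2 * Real.cos (Real.pi * θ) : ℝ) : ℂ) * Complex.exp (Real.pi * Complex.I * θ) := by
  have e1 : (((2 * Real.cos (Real.pi * θ) : ℝ)) : ℂ) =
      Complex.exp (Real.pi * Complex.I * θ) + Complex.exp (-(Real.pi * Complex.I * θ)) := by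
    push_cast
    rw [Complex.two_cos]
    congr 2 <;> ring
  rw [e1, add_mul, ← Complex.exp_add, ← Complex.exp_add]
  rw [add_comm]
  congr 1
  · congr 1; ring
  · rw [neg_add_cancel, Complex.exp_zero]

set_option linter.unusedSectionVars false
set_option linter.unusedVariables false

variable {ι : Type*} [DecidableEq ι]

/-- the exponential sum -/
noncomputable def F (D : Finset ι) (v : ι → ℕ) (h : ℤ) : ℂ :=
  ∏ n ∈ D, (1 + Complex.exp (2 * Real.pi * Complex.I * ((h / v n : ℝ) : ℂ)))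

theorem F_eq (D : Finset ι) (v : ι → ℕ) (h : ℤ) :
    F D v h = ((∏ n ∈ D, (2 * Real.cos (Real.pi * (h / v n : ℝ))) : ℝ) : ℂ) *
      Complex.exp (Real.pi * Complex.I * ((h * ∑ n ∈ D, (1 / v n : ℝ) : ℝ) : ℂ)) := by
  unfold F
  rw [Finset.prod_congr rfl (fun n _ => one_add_exp (h / v n : ℝ)), Finset.prod_mul_distrib,
    ← Complex.exp_sum]
  push_cast
  congr 2
  rw [← Finset.mul_sum]
  congr 1
  rw [Finset.mul_sum]
  refine Finset.sum_congr rfl fun n _ => ?_
  ring

theorem F_zero (D : Finset ι) (v : ι → ℕ) : F D v 0 = 2 ^ D.card := by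
  unfold F
  simp [one_add_one_eq_two]

theorem norm_F_le (D : Finset ι) (v : ι → ℕ) (h : ℤ) :
    ‖F D v h‖ ≤ 2 ^ D.card * Real.exp (-∑ n ∈ D, 2 * nd (h / v n) ^ 2) := by
  rw [F_eq, norm_mul]
  have h1 : ‖Complex.exp (Real.pi * Complex.I * ((h * ∑ n ∈ D, (1 / v n : ℝ) : ℝ) : ℂ))‖ = 1 := by
    have : (Real.pi * Complex.I * ((h * ∑ n ∈ D, (1 / v n : ℝ) : ℝ) : ℂ)) =
        ((Real.pi * (h * ∑ n ∈ D, (1 / v n : ℝ)) : ℝ) : ℂ) * Complex.I := by
      push_cast; ring
    rw [this, Complex.norm_exp_ofReal_mul_I]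
  rw [h1, mul_one, Complex.norm_real, Real.norm_eq_abs, Finset.abs_prod]
  have h2 : ∀ n ∈ D, |2 * Real.cos (Real.pi * (h / v n : ℝ))| ≤
      2 * Real.exp (-(2 * nd (h / v n) ^ 2)) := by
    intro n _
    rw [abs_mul, abs_two]
    exact mul_le_mul_of_nonneg_left (abs_cos_le _) (by norm_num)
  refine (Finset.prod_le_prod (fun n _ => abs_nonneg _) h2).trans (le_of_eq ?_)
  rw [Finset.prod_mul_distrib, Finset.prod_const, ← Real.exp_sum, Finset.sum_neg_distrib]

theorem F_periodic (D : Finset ι) (v : ι → ℕ) (P : ℕ) (hP : ∀ n ∈ D, v n ∣ P)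
    (hv : ∀ n ∈ D, 0 < v n) (h : ℤ) : F D v (h - P) = F D v h := by
  unfold F
  refine Finset.prod_congr rfl fun n hn => ?_
  obtain ⟨q, hq⟩ := hP n hn
  have hv0 : (v n : ℝ) ≠ 0 := by exact_mod_cast (hv n hn).ne'
  have e : (((h - P : ℤ) : ℝ) / v n) = (h / v n : ℝ) - (q : ℝ) := by
    rw [hq]
    push_cast
    field_simp
  rw [e]
  congr 1
  have e2 : (2 * Real.pi * Complex.I * (((h / v n : ℝ) - (q : ℝ) : ℝ) : ℂ)) =
      2 * Real.pi * Complex.I * ((h / v n : ℝ) : ℂ) - (q : ℤ) * (2 * Real.pi * Complex.I) := by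
    push_cast; ring
  rw [e2, Complex.exp_sub, Complex.exp_int_mul_two_pi_mul_I, div_one]

/-- The count. -/
theorem sum_F (D : Finset ι) (v : ι → ℕ) (P : ℕ) (hP : ∀ n ∈ D, v n ∣ P) (hP0 : 0 < P)
    (hv : ∀ n ∈ D, 0 < v n)
    (hno : ∀ S ⊆ D, S.Nonempty → ¬ ∃ m : ℤ, ∑ n ∈ S, (1 / v n : ℝ) = m) :
    ∑ h ∈ Finset.range P, F D v h = P := by
  have h1 : ∀ h : ℕ, F D v h = ∑ S ∈ D.powerset,
      Complex.exp (2 * Real.pi * Complex.I * ((∑ n ∈ S, (1 / v n : ℝ) : ℝ) : ℂ)) ^ h := by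
    intro h
    unfold F
    rw [Finset.prod_one_add]
    refine Finset.sum_congr rfl fun S _ => ?_
    rw [← Complex.exp_nat_mul, ← Complex.exp_sum]
    congr 1
    push_cast
    rw [Finset.mul_sum, Finset.mul_sum]
    refine Finset.sum_congr rfl fun n _ => ?_
    ring
  rw [Finset.sum_congr rfl (fun h _ => h1 h), Finset.sum_comm]
  rw [Finset.sum_eq_single_of_mem ∅ (Finset.empty_mem_powerset D)]
  · simp
  · intro S hS hne
    have hSD := Finset.mem_powerset.1 hS
    have hSn := Finset.nonempty_iff_ne_empty.2 hne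
    set θ : ℝ := ∑ n ∈ S, (1 / v n : ℝ) with hθ
    have hPθ : ∃ m : ℤ, (P : ℝ) * θ = m := by
      refine ⟨∑ n ∈ S, ((P / v n : ℕ) : ℤ), ?_⟩
      rw [hθ, Finset.mul_sum, Int.cast_sum]
      refine Finset.sum_congr rfl fun n hn => ?_
      have := hP n (hSD hn)
      have hv0 : (v n : ℝ) ≠ 0 := by exact_mod_cast (hv n (hSD hn)).ne'
      rw [Int.cast_natCast, Nat.cast_div this hv0]
      ring
    have hζ1 : Complex.exp (2 * Real.pi * Complex.I * (θ : ℂ)) ≠ 1 := by
      intro h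
      rw [Complex.exp_eq_one_iff] at h
      obtain ⟨m, hm⟩ := h
      refine hno S hSD hSn ⟨m, ?_⟩
      have hpi : (2 * Real.pi * Complex.I : ℂ) ≠ 0 := by
        simp [Real.pi_ne_zero]
      have : (θ : ℂ) = m := by
        have h2 : (2 * Real.pi * Complex.I) * (θ : ℂ) = (2 * Real.pi * Complex.I) * m := by
          rw [hm]; ring
        exact mul_left_cancel₀ hpi h2
      exact_mod_cast this
    have hζP : Complex.exp (2 * Real.pi * Complex.I * (θ : ℂ)) ^ P = 1 := by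
      obtain ⟨m, hm⟩ := hPθ
      rw [← Complex.exp_nat_mul, Complex.exp_eq_one_iff]
      refine ⟨m, ?_⟩
      have : ((P : ℝ) * θ : ℂ) = m := by exact_mod_cast hm
      calc (P : ℂ) * (2 * Real.pi * Complex.I * (θ : ℂ))
          = ((P : ℝ) * θ : ℂ) * (2 * Real.pi * Complex.I) := by push_cast; ring
        _ = _ := by rw [this]
    have h3 := mul_neg_geom_sum (Complex.exp (2 * Real.pi * Complex.I * (θ : ℂ))) P
    rw [hζP, sub_self] at h3
    rcases mul_eq_zero.1 h3 with h4 | h4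
    · exact absurd (sub_eq_zero.1 h4).symm hζ1
    · exact h4

/-- The Fourier criterion. -/
theorem fourier (D : Finset ι) (v : ι → ℕ) (P : ℕ) (hP : ∀ n ∈ D, v n ∣ P) (hP0 : 0 < P)
    (L : ℝ) (hL : 0 ≤ L) (hv : ∀ n ∈ D, 2 * L < v n) (hv0 : ∀ n ∈ D, 0 < v n)
    (k : ℤ) (hR : |∑ n ∈ D, (1 / v n : ℝ) - 2 * k| * L ≤ 1 / 2)
    (hmin : ∀ h : ℤ, 2 * |(h : ℝ)| ≤ P → L < |(h : ℝ)| →
      Real.log (4 * P) ≤ ∑ n ∈ D, 2 * nd (h / v n) ^ 2)
    (hcard : (2 * P : ℝ) ≤ 2 ^ D.card) :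
    ∃ S ⊆ D, S.Nonempty ∧ ∃ m : ℤ, ∑ n ∈ S, (1 / v n : ℝ) = m := by
  by_contra hcon
  push Not at hcon
  have hno : ∀ S ⊆ D, S.Nonempty → ¬ ∃ m : ℤ, ∑ n ∈ S, (1 / v n : ℝ) = m := by
    intro S hS hn ⟨m, hm⟩
    exact hcon S hS hn m hm
  have hsum := sum_F D v P hP hP0 hv0 hno
  have hP0' : (0 : ℝ) < P := by exact_mod_cast hP0
  -- positivity on the major arc
  have hpos : ∀ h : ℤ, |(h : ℝ)| ≤ L → 0 ≤ (F D v h).re := by
    intro h hh
    rw [F_eq, Complex.re_ofReal_mul]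
    refine mul_nonneg (Finset.prod_nonneg fun n hn => ?_) ?_
    · have h0 : (0 : ℝ) < v n := by exact_mod_cast hv0 n hn
      have h1 : |(h / v n : ℝ)| ≤ 1 / 2 := by
        rw [abs_div, abs_of_pos h0, div_le_iff₀ h0]
        have := hv n hn
        linarith
      have h2 := abs_le.1 h1
      have := Real.pi_pos
      refine mul_nonneg (by norm_num) (Real.cos_nonneg_of_neg_pi_div_two_le_of_le ?_ ?_)
      · nlinarith
      · nlinarith
    · set R := ∑ n ∈ D, (1 / v n : ℝ) with hRdef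
      have e : (Real.pi * Complex.I * ((h * R : ℝ) : ℂ)) =
          ((Real.pi * (h * (R - 2 * k)) : ℝ) : ℂ) * Complex.I +
            ((h * k : ℤ) : ℂ) * (2 * Real.pi * Complex.I) := by
        push_cast; ring
      rw [e, Complex.exp_add, Complex.exp_int_mul_two_pi_mul_I, mul_one, Complex.exp_ofReal_mul_I_re]
      have h1 : |(h : ℝ) * (R - 2 * k)| ≤ 1 / 2 := by
        rw [abs_mul, mul_comm]
        exact (mul_le_mul_of_nonneg_left hh (abs_nonneg _)).trans hR
      have h2 := abs_le.1 h1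
      have := Real.pi_pos
      exact Real.cos_nonneg_of_neg_pi_div_two_le_of_le (by nlinarith) (by nlinarith)
  have hneg : ∀ h : ℤ, 2 * |(h : ℝ)| ≤ P → -(2 ^ D.card / (4 * P)) ≤ (F D v h).re := by
    intro h hh
    by_cases hL' : |(h : ℝ)| ≤ L
    · refine le_trans ?_ (hpos h hL')
      have : (0 : ℝ) ≤ 2 ^ D.card / (4 * P) := by positivity
      linarith
    · push Not at hL'
      have h1 := norm_F_le D v h
      have h2 := hmin h hh hL'
      have h3 : Real.exp (-∑ n ∈ D, 2 * nd (h / v n) ^ 2) ≤ 1 / (4 * P) := by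
        calc Real.exp (-∑ n ∈ D, 2 * nd (h / v n) ^ 2) ≤ Real.exp (-Real.log (4 * P)) :=
              Real.exp_le_exp.2 (by linarith)
          _ = 1 / (4 * P) := by
              rw [Real.exp_neg, Real.exp_log (by positivity), one_div]
      have h4 : ‖F D v h‖ ≤ 2 ^ D.card / (4 * P) := by
        refine h1.trans ?_
        rw [div_eq_mul_one_div]
        exact mul_le_mul_of_nonneg_left h3 (by positivity)
      have h5 := Complex.abs_re_le_norm (F D v h)
      have h6 := abs_le.1 (h5.trans h4)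
      exact h6.1
  have hall : ∀ h ∈ Finset.range P, -(2 ^ D.card / (4 * P)) ≤ (F D v h).re := by
    intro h hh
    rw [Finset.mem_range] at hh
    by_cases h2 : 2 * h ≤ P
    · refine hneg h ?_
      rw [abs_of_nonneg (by positivity)]
      exact_mod_cast h2
    · push Not at h2
      rw [← F_periodic D v P hP hv0 h]
      refine hneg (h - P) ?_
      have h3 : ((h : ℤ) - P : ℤ) ≤ 0 := by omega
      have h4 : (((h : ℤ) - P : ℤ) : ℝ) ≤ 0 := by exact_mod_cast h3
      rw [abs_of_nonpos h4]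
      have h5 : (2 * -((h : ℤ) - P : ℤ) : ℤ) ≤ P := by omega
      exact_mod_cast h5
  have hre : (∑ h ∈ Finset.range P, F D v h).re = P := by rw [hsum]; simp
  rw [Complex.re_sum, ← Finset.add_sum_erase _ _ (Finset.mem_range.2 hP0)] at hre
  have h0 : (F D v ((0 : ℕ) : ℤ)).re = 2 ^ D.card := by
    have : F D v ((0 : ℕ) : ℤ) = ((2 ^ D.card : ℝ) : ℂ) := by
      rw [Nat.cast_zero, F_zero]; push_cast; rfl
    rw [this, Complex.ofReal_re]
  rw [h0] at hre
  have h6 : (((Finset.range P).erase 0).card : ℝ) * (-(2 ^ D.card / (4 * P))) ≤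
      ∑ h ∈ (Finset.range P).erase 0, (F D v h).re := by
    rw [← nsmul_eq_mul]
    exact Finset.card_nsmul_le_sum _ _ _ fun h hh => hall h (Finset.mem_of_mem_erase hh)
  have h7 : (((Finset.range P).erase 0).card : ℝ) ≤ P := by
    have : ((Finset.range P).erase 0).card ≤ P := by
      calc ((Finset.range P).erase 0).card ≤ (Finset.range P).card := Finset.card_erase_le
        _ = P := Finset.card_range P
    exact_mod_cast this
  have h8 : (P : ℝ) * (2 ^ D.card / (4 * P)) = 2 ^ D.card / 4 := by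
    field_simp
  have h9 : (0 : ℝ) < 2 ^ D.card := by positivity
  have h10 : (((Finset.range P).erase 0).card : ℝ) * (2 ^ D.card / (4 * P)) ≤ 2 ^ D.card / 4 := by
    rw [← h8]
    exact mul_le_mul_of_nonneg_right h7 (by positivity)
  nlinarith

end Pool.Agent.H67EF
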