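import Pool.Agent.H67EF.Fou
import Pool.Agent.H67EF.Es

set_option autoImplicit false

namespace Pool.Agent.H67EF

open Finset

/-- The harmonic weight. -/
noncomputable def W (Y : ℕ) : ℝ := ∑ b ∈ Icc 1 Y, (1 / b : ℝ)

theorem W_nonneg (Y : ℕ) : 0 ≤ W Y := sum_nonneg fun b _ => by positivity

/-- The nearest multiple. -/
noncomputable def nm (h : ℤ) (v : ℕ) : ℤ := v * round (h / v : ℝ)

theorem nm_dvd (h : ℤ) (v : ℕ) : (v : ℤ) ∣ nm h v := Dvd.intro _ rfl

theorem nm_dist (h : ℤ) (v : ℕ) (hv : 0 < v) : |(h : ℝ) - nm h v| = v * nd (h / v) := by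
  have hv0 : (0 : ℝ) < v := by exact_mod_cast hv
  unfold nm nd
  push_cast
  conv_rhs => rw [← abs_of_pos hv0, ← abs_mul, abs_of_pos hv0]
  congr 1
  field_simp

/-- Primes of `V` dividing `y`. -/
def QQ (V : Finset ℕ) (y : ℤ) : Finset ℕ := V.filter (fun p : ℕ => (p : ℤ) ∣ y)

theorem QQ_sub (V : Finset ℕ) (y : ℤ) : QQ V y ⊆ V := filter_subset _ _

theorem prod_dvd_of (V : Finset ℕ) (hV : ∀ p ∈ V, p.Prime) (e : Finset ℕ) (he : e ⊆ V) (y : ℤ)
    (h : ∀ p ∈ e, (p : ℤ) ∣ y) : ((∏ p ∈ e, p : ℕ) : ℤ) ∣ y := by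
  rw [Int.natCast_dvd]
  refine Finset.prod_primes_dvd _ (fun p hp => (hV p (he hp)).prime) fun p hp => ?_
  rw [← Int.natCast_dvd]
  exact h p hp

theorem QQ_uniq (V : Finset ℕ) (hV : ∀ p ∈ V, p.Prime) (L : ℕ)
    (h5 : ∀ e ∈ V.powersetCard 5, 2 * L < ∏ p ∈ e, p) (h y y' : ℤ) (hy : y ∈ Icc (h - L) (h + L))
    (hy' : y' ∈ Icc (h - L) (h + L)) (e : Finset ℕ) (he : e.card = 5) (h1 : e ⊆ QQ V y)
    (h2 : e ⊆ QQ V y') : y = y' := by
  have heV : e ⊆ V := h1.trans (QQ_sub V y)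
  have h3 : ((∏ p ∈ e, p : ℕ) : ℤ) ∣ y - y' := by
    refine prod_dvd_of V hV e heV _ fun p hp => ?_
    have h4 := (mem_filter.1 (h1 hp)).2
    have h5 := (mem_filter.1 (h2 hp)).2
    exact dvd_sub h4 h5
  have h4 := h5 e (mem_powersetCard.2 ⟨heV, he⟩)
  rw [mem_Icc] at hy hy'
  by_contra hne
  have h6 : ((∏ p ∈ e, p : ℕ) : ℤ) ≤ |y - y'| := by
    refine Int.le_of_dvd (abs_pos.2 (sub_ne_zero.2 hne)) ?_
    rwa [dvd_abs]
  have h7 : |y - y'| ≤ 2 * L := by
    rw [abs_le]
    constructor <;> omega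
  have h8 : ((2 * L : ℕ) : ℤ) < ((∏ p ∈ e, p : ℕ) : ℤ) := by exact_mod_cast h4
  push_cast at h8 h6
  omega

theorem minor (Y : ℕ) (V : Finset ℕ) (hV : ∀ p ∈ V, p.Prime) (hVY : ∀ p ∈ V, Y < p)
    (C D : Finset (ℕ × Finset ℕ)) (hC : ∀ n ∈ C, n.1 ∈ Icc 1 Y ∧ n.2.card = 7)
    (hD : D ⊆ C.filter (fun n => n.2 ⊆ V)) (Φ : ℝ) (hΦ : 0 < Φ)
    (hext : ∀ Q ⊆ V, wt (C.filter (fun n => n.2 ⊆ Q)) ≤ Φ * (mu Q * es 5 Q))
    (h5pos : 0 < es 5 V)
    (L : ℕ) (hL0 : 0 < L) (h5 : ∀ e ∈ V.powersetCard 5, 2 * L < ∏ p ∈ e, p)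
    (N M : ℝ) (hM : 0 < M) (hN : ∀ n ∈ D, (val n : ℝ) ≤ N) (hMn : ∀ n ∈ D, M ≤ val n)
    (hLM : 2 * (Y : ℝ) * L ≤ M) (Θ εE : ℝ) (hεE : Θ * N ^ 2 / (2 * L ^ 2) / M ≤ εE)
    (ε : ℝ) (hε : (1 - ε) * (Φ * (mu V * es 5 V)) ≤ wt D - εE)
    (τ : ℝ) (hτ : ∀ p ∈ V, (1 / p : ℝ) * τ ≤ wt (D.filter (fun n => p ∈ n.2)))
    (η z : ℝ) (hη : ∀ p ∈ V, (1 / p : ℝ) ≤ η) (hz : ∀ p ∈ V, (p : ℝ) ≤ z)
    (hkey : W Y * (ε * mu V + 4 * η) ^ 2 * es 4 V < τ - z * εE)
    (B0 : ℝ) (hB0 : ∀ n ∈ D, B0 ≤ (D.filter (fun m => m.1 = n.1)).card)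
    (hBΘ : Θ * (2 * (Y : ℝ) ^ 2) ≤ B0) (hDne : D.Nonempty)
    (h : ℤ) (hh : 2 * |(h : ℝ)| ≤ (D.lcm val : ℕ))
    (hsum : ∑ n ∈ D, 2 * nd (h / val n) ^ 2 < Θ) : |(h : ℝ)| ≤ L := by
  classical
  have hL0' : (0 : ℝ) < L := by exact_mod_cast hL0
  have hDC : ∀ n ∈ D, n ∈ C ∧ n.2 ⊆ V := fun n hn => mem_filter.1 (hD hn)
  have hDv : ∀ n ∈ D, 0 < val n := by
    intro n hn
    have := hMn n hn
    have h1 : (0 : ℝ) < val n := hM.trans_le this
    exact_mod_cast h1
  set x : ℕ × Finset ℕ → ℤ := fun n => nm h (val n) with hx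
  -- exceptional set
  set E := D.filter (fun n => (L : ℝ) < |(h : ℝ) - x n|) with hE
  set G := D.filter (fun n => ¬ (L : ℝ) < |(h : ℝ) - x n|) with hG
  obtain ⟨n0, hn0⟩ := hDne
  have hNpos : 0 < N := by
    have h1 := hN n0 hn0
    have h2 := hMn n0 hn0
    linarith
  have hEcard : (E.card : ℝ) * (2 * (L / N) ^ 2) ≤ Θ := by
    have h1 : ∀ n ∈ E, 2 * (L / N) ^ 2 ≤ 2 * nd (h / val n) ^ 2 := by
      intro n hn
      rw [hE, mem_filter] at hn
      have h2 := nm_dist h (val n) (hDv n hn.1)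
      have h3 : (L : ℝ) < val n * nd (h / val n) := by rw [← h2]; exact hn.2
      have h4 : (0 : ℝ) < val n := by exact_mod_cast hDv n hn.1
      have h5 := hN n hn.1
      have h6 : L / N ≤ nd (h / val n) := by
        rw [div_le_iff₀ hNpos]
        have := nd_nonneg (h / val n)
        nlinarith
      have h7 : 0 ≤ L / N := by positivity
      have := pow_le_pow_left₀ h7 h6 2
      linarith
    have h2 := card_nsmul_le_sum E _ _ h1
    rw [nsmul_eq_mul] at h2
    have h3 : ∑ n ∈ E, 2 * nd (h / val n) ^ 2 ≤ ∑ n ∈ D, 2 * nd (h / val n) ^ 2 :=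
      sum_le_sum_of_subset_of_nonneg (filter_subset _ _) fun n _ _ => by positivity
    linarith
  have hwE : wt E ≤ εE := by
    refine le_trans ?_ hεE
    have h1 : wt E ≤ E.card * (1 / M) := by
      unfold wt
      rw [← nsmul_eq_mul]
      refine sum_le_card_nsmul _ _ _ fun n hn => ?_
      exact one_div_le_one_div_of_le hM (hMn n (mem_of_mem_filter n hn))
    refine h1.trans ?_
    rw [mul_one_div]
    refine div_le_div_of_nonneg_right ?_ hM.le
    rw [le_div_iff₀ (by positivity)]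
    have h2 : (E.card : ℝ) * (2 * (L / N) ^ 2) * N ^ 2 = E.card * (2 * L ^ 2) := by
      field_simp
    rw [← h2]
    exact mul_le_mul_of_nonneg_right hEcard (by positivity)
  have hsplit : ∀ (R : ℕ × Finset ℕ → Prop) [DecidablePred R],
      wt (D.filter R) ≤ wt (G.filter R) + wt E := by
    intro R _
    have h1 : D.filter R ⊆ G.filter R ∪ E := by
      intro n hn
      rw [mem_filter] at hn
      rw [mem_union]
      by_cases h2 : (L : ℝ) < |(h : ℝ) - x n|
      · right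
        rw [hE, mem_filter]
        exact ⟨hn.1, h2⟩
      · left
        rw [mem_filter, hG, mem_filter]
        exact ⟨⟨hn.1, h2⟩, hn.2⟩
    refine (wt_mono h1).trans ?_
    unfold wt
    rw [← sum_union_inter]
    have : (0 : ℝ) ≤ ∑ i ∈ G.filter R ∩ E, (1 / val i : ℝ) := sum_nonneg fun _ _ => by positivity
    linarith
  set I := Icc (h - L) (h + L) with hI
  have hxI : ∀ n ∈ G, x n ∈ I := by
    intro n hn
    rw [hG, mem_filter, not_lt] at hn
    have h1 := abs_le.1 hn.2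
    rw [hI, mem_Icc]
    constructor
    · have : ((h - L : ℤ) : ℝ) ≤ x n := by push_cast; linarith
      exact_mod_cast this
    · have : (x n : ℝ) ≤ ((h + L : ℤ) : ℝ) := by push_cast; linarith
      exact_mod_cast this
  have hsub : ∀ n ∈ G, n.2 ⊆ QQ V (x n) := by
    intro n hn p hp
    have hnD := mem_of_mem_filter n hn
    rw [QQ, mem_filter]
    refine ⟨(hDC n hnD).2 hp, ?_⟩
    refine dvd_trans ?_ (nm_dvd h (val n))
    rw [Int.natCast_dvd_natCast]
    exact dvd_mul_of_dvd_right (dvd_prod_of_mem _ hp) _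
  have hGC : ∀ n ∈ G, n ∈ C := fun n hn => (hDC n (mem_of_mem_filter n hn)).1
  have hfib : ∀ (R : ℕ × Finset ℕ → Prop) [DecidablePred R],
      wt (G.filter R) = ∑ y ∈ I, wt ((G.filter R).filter (fun n => x n = y)) := by
    intro R _
    unfold wt
    exact (sum_fiberwise_of_maps_to (fun n hn => hxI n (mem_of_mem_filter n hn)) _).symm
  have huniq := QQ_uniq V hV L h5 h
  -- the dominant point
  obtain ⟨y0, hy0I, hy0⟩ := exists_max_image I (fun y => mu (QQ V y)) ⟨h, by
    rw [hI, mem_Icc]; constructor <;> omega⟩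
  have hGle : wt G ≤ Φ * (mu (QQ V y0) * es 5 V) := by
    have h1 : wt G = ∑ y ∈ I, wt (G.filter (fun n => x n = y)) := by
      have := hfib (fun _ => True)
      simpa using this
    rw [h1]
    calc ∑ y ∈ I, wt (G.filter (fun n => x n = y))
        ≤ ∑ y ∈ I, Φ * (mu (QQ V y0) * es 5 (QQ V y)) := by
          refine sum_le_sum fun y hy => ?_
          refine (wt_mono (D := C.filter (fun n => n.2 ⊆ QQ V y)) ?_).trans
            ((hext _ (QQ_sub V y)).trans ?_)
          · intro n hn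
            rw [mem_filter] at hn ⊢
            refine ⟨hGC n hn.1, ?_⟩
            rw [← hn.2]
            exact hsub n hn.1
          · exact mul_le_mul_of_nonneg_left
              (mul_le_mul_of_nonneg_right (hy0 y hy) (es_nonneg _ _)) hΦ.le
      _ = Φ * (mu (QQ V y0) * ∑ y ∈ I, es 5 (QQ V y)) := by rw [mul_sum, mul_sum]
      _ ≤ Φ * (mu (QQ V y0) * es 5 V) := by
          refine mul_le_mul_of_nonneg_left (mul_le_mul_of_nonneg_left ?_ (mu_nonneg _)) hΦ.le
          refine es_sum_le 5 V I (QQ V) (fun y _ => QQ_sub V y) ?_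
          intro e he y hy y' hy' h1 h2
          exact huniq y y' hy hy' e (mem_powersetCard.1 he).2 h1 h2
  have hDle : wt D ≤ wt G + wt E := by
    have := hsplit (fun _ => True)
    simpa using this
  have hmu : (1 - ε) * mu V ≤ mu (QQ V y0) := by
    have h1 : (1 - ε) * (Φ * (mu V * es 5 V)) ≤ Φ * (mu (QQ V y0) * es 5 V) := by linarith
    have h2 : 0 < Φ * es 5 V := mul_pos hΦ h5pos
    have h3 : ((1 - ε) * mu V) * (Φ * es 5 V) ≤ mu (QQ V y0) * (Φ * es 5 V) := by linarith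
    exact le_of_mul_le_mul_right h3 h2
  -- other points are small
  have hνpos : 0 ≤ ε * mu V + 4 * η := by
    have h1 : mu (QQ V y0) ≤ mu V := mu_mono (QQ_sub V y0)
    have h2 : 0 ≤ ε * mu V := by linarith
    have h3 : 0 ≤ η := by
      have hc := (hC n0 (hDC n0 hn0).1).2
      obtain ⟨p, hp⟩ := card_pos.1 (by omega : 0 < n0.2.card)
      exact le_trans (by positivity) (hη p ((hDC n0 hn0).2 hp))
    linarith
  have hother : ∀ y ∈ I, y ≠ y0 → mu (QQ V y) ≤ ε * mu V + 4 * η := by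
    intro y hy hne
    have h1 : QQ V y ⊆ (V \ QQ V y0) ∪ (QQ V y ∩ QQ V y0) := by
      intro p hp
      by_cases h2 : p ∈ QQ V y0
      · exact mem_union_right _ (mem_inter.2 ⟨hp, h2⟩)
      · exact mem_union_left _ (mem_sdiff.2 ⟨QQ_sub V y hp, h2⟩)
    have hcard : (QQ V y ∩ QQ V y0).card ≤ 4 := by
      by_contra hc
      push Not at hc
      obtain ⟨e, he1, he2⟩ := exists_subset_card_eq (show 5 ≤ (QQ V y ∩ QQ V y0).card by omega)
      exact hne (huniq y y0 hy hy0I e he2 (he1.trans inter_subset_left)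
        (he1.trans inter_subset_right))
    have h2 : mu (QQ V y ∩ QQ V y0) ≤ 4 * η := by
      have h3 : mu (QQ V y ∩ QQ V y0) ≤ (QQ V y ∩ QQ V y0).card * η := by
        unfold mu
        rw [← nsmul_eq_mul]
        exact sum_le_card_nsmul _ _ _ fun p hp => hη p (QQ_sub V y (mem_inter.1 hp).1)
      have h4 : ((QQ V y ∩ QQ V y0).card : ℝ) ≤ 4 := by exact_mod_cast hcard
      have h5 : 0 ≤ η := by
        have hc := (hC n0 (hDC n0 hn0).1).2
        obtain ⟨p, hp⟩ := card_pos.1 (by omega : 0 < n0.2.card)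
        exact le_trans (by positivity) (hη p ((hDC n0 hn0).2 hp))
      nlinarith
    have h3 : mu (V \ QQ V y0) + mu (QQ V y0) = mu V := sum_sdiff (QQ_sub V y0)
    have h4 : mu (QQ V y) ≤ mu (V \ QQ V y0) + mu (QQ V y ∩ QQ V y0) := by
      refine (mu_mono h1).trans ?_
      unfold mu
      rw [← sum_union_inter]
      have : (0 : ℝ) ≤ ∑ i ∈ (V \ QQ V y0) ∩ (QQ V y ∩ QQ V y0), (1 / i : ℝ) :=
        sum_nonneg fun _ _ => by positivity
      linarith
    linarith
  -- all primes divide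
  have hall : ∀ p ∈ V, (p : ℤ) ∣ y0 := by
    intro p hp
    by_contra hpn
    have hp0 : (0 : ℝ) < p := by exact_mod_cast (hV p hp).pos
    have h1 := hτ p hp
    have h2 := hsplit (fun n => p ∈ n.2)
    have h3 := hfib (fun n => p ∈ n.2)
    set I' := I.filter (fun y => p ∈ QQ V y) with hI'
    have h4 : ∑ y ∈ I, wt ((G.filter (fun n => p ∈ n.2)).filter (fun n => x n = y)) ≤
        ∑ y ∈ I', (1 / p : ℝ) * (W Y * ((ε * mu V + 4 * η) ^ 2 * es 4 ((QQ V y).erase p))) := by
      rw [← sum_filter_add_sum_filter_not I (fun y => p ∈ QQ V y)]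
      have h5 : ∑ y ∈ I.filter (fun y => ¬ p ∈ QQ V y),
          wt ((G.filter (fun n => p ∈ n.2)).filter (fun n => x n = y)) = 0 := by
        refine sum_eq_zero fun y hy => ?_
        rw [mem_filter] at hy
        have : (G.filter (fun n => p ∈ n.2)).filter (fun n => x n = y) = ∅ := by
          rw [filter_eq_empty_iff]
          intro n hn e
          rw [mem_filter] at hn
          exact hy.2 (e ▸ hsub n hn.1 hn.2)
        rw [this]
        rfl
      rw [h5, add_zero]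
      refine sum_le_sum fun y hy => ?_
      rw [mem_filter] at hy
      have hne : y ≠ y0 := by
        rintro rfl
        exact hpn (mem_filter.1 hy.2).2
      refine (wt_le_prod_mem (Icc 1 Y) 6 (QQ V y) p _ ?_).trans ?_
      · intro n hn
        rw [mem_filter, mem_filter] at hn
        obtain ⟨⟨hn1, hn2⟩, hn3⟩ := hn
        refine ⟨(hC n (hGC n hn1)).1, hn2, ?_⟩
        rw [mem_powersetCard]
        refine ⟨erase_subset_erase p (hn3 ▸ hsub n hn1), ?_⟩
        rw [card_erase_of_mem hn2, (hC n (hGC n hn1)).2]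
      · refine mul_le_mul_of_nonneg_left (mul_le_mul_of_nonneg_left ?_ (W_nonneg Y))
          (by positivity)
        set S := (QQ V y).erase p with hS
        have hS1 : mu S ≤ ε * mu V + 4 * η :=
          (mu_mono (erase_subset _ _)).trans (hother y hy.1 hne)
        have h6 := es_succ_le 5 S
        have h7 := es_succ_le 4 S
        have h8 := mu_nonneg S
        have h9 := es_nonneg 4 S
        have h10 := es_nonneg 5 S
        calc es 6 S ≤ mu S * es 5 S := h6
          _ ≤ mu S * (mu S * es 4 S) := mul_le_mul_of_nonneg_left h7 h8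
          _ = mu S ^ 2 * es 4 S := by ring
          _ ≤ (ε * mu V + 4 * η) ^ 2 * es 4 S :=
            mul_le_mul_of_nonneg_right (pow_le_pow_left₀ h8 hS1 2) h9
    have h5' : ∑ y ∈ I', es 4 ((QQ V y).erase p) ≤ es 4 V := by
      refine (es_sum_le 4 (V.erase p) I' (fun y => (QQ V y).erase p)
        (fun y _ => erase_subset_erase p (QQ_sub V y)) ?_).trans (es_mono 4 (erase_subset _ _))
      intro e he y hy y' hy' h1 h2
      rw [mem_powersetCard] at he
      rw [hI', mem_filter] at hy hy'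
      have hpe : p ∉ e := fun h => (mem_erase.1 (he.1 h)).1 rfl
      refine huniq y y' hy.1 hy'.1 (insert p e) (by rw [card_insert_of_notMem hpe, he.2]) ?_ ?_
      · intro q hq
        rcases mem_insert.1 hq with rfl | hq
        · exact hy.2
        · exact mem_of_mem_erase (h1 hq)
      · intro q hq
        rcases mem_insert.1 hq with rfl | hq
        · exact hy'.2
        · exact mem_of_mem_erase (h2 hq)
    have h6 : ∑ y ∈ I', (1 / p : ℝ) * (W Y * ((ε * mu V + 4 * η) ^ 2 *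
        es 4 ((QQ V y).erase p))) ≤ (1 / p : ℝ) * (W Y * (ε * mu V + 4 * η) ^ 2 * es 4 V) := by
      rw [← mul_sum]
      refine mul_le_mul_of_nonneg_left ?_ (by positivity)
      rw [← mul_sum, ← mul_sum, ← mul_assoc]
      exact mul_le_mul_of_nonneg_left h5' (mul_nonneg (W_nonneg Y) (sq_nonneg _))
    have h7 : (1 / p : ℝ) * τ ≤ (1 / p : ℝ) * (W Y * (ε * mu V + 4 * η) ^ 2 * es 4 V) + εE := by
      linarith
    have h8 : τ ≤ W Y * (ε * mu V + 4 * η) ^ 2 * es 4 V + p * εE := by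
      have h9 := mul_le_mul_of_nonneg_left h7 hp0.le
      have e1 : (p : ℝ) * ((1 / p : ℝ) * τ) = τ := by field_simp
      have e2 : (p : ℝ) * ((1 / p : ℝ) * (W Y * (ε * mu V + 4 * η) ^ 2 * es 4 V) + εE) =
          W Y * (ε * mu V + 4 * η) ^ 2 * es 4 V + p * εE := by field_simp
      rwa [e1, e2] at h9
    have h9 : (p : ℝ) * εE ≤ z * εE :=
      mul_le_mul_of_nonneg_right (hz p hp) ((wt_nonneg E).trans hwE)
    linarith
  have hprod : ∀ e ⊆ V, ((∏ p ∈ e, p : ℕ) : ℤ) ∣ y0 := fun e he =>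
    prod_dvd_of V hV e he y0 fun p hp => hall p (he hp)
  have hhy : |(h : ℝ) - y0| ≤ L := by
    rw [hI, mem_Icc] at hy0I
    have h1 : ((h - L : ℤ) : ℝ) ≤ y0 := by exact_mod_cast hy0I.1
    have h2 : (y0 : ℝ) ≤ ((h + L : ℤ) : ℝ) := by exact_mod_cast hy0I.2
    push_cast at h1 h2
    rw [abs_le]
    constructor <;> linarith
  -- all b divide
  have hb : ∀ n ∈ D, (n.1 : ℤ) ∣ y0 := by
    intro n1 hn1
    by_contra hnb
    have hY1 : (1 : ℝ) ≤ Y := by
      have := mem_Icc.1 (hC n1 (hDC n1 hn1).1).1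
      have h2 : 1 ≤ Y := this.1.trans this.2
      exact_mod_cast h2
    have h1 : ∀ n ∈ D.filter (fun m => m.1 = n1.1), 2 * (1 / (2 * Y)) ^ 2 ≤
        2 * nd (h / val n) ^ 2 := by
      intro n hn
      rw [mem_filter] at hn
      have hnC := hC n (hDC n hn.1).1
      have hb1 := mem_Icc.1 hnC.1
      have hvn : (0 : ℝ) < val n := by exact_mod_cast hDv n hn.1
      obtain ⟨k, hk⟩ := hprod n.2 (hDC n hn.1).2
      have hb0 : (0 : ℝ) < n.1 := by exact_mod_cast hb1.1
      have hbY : (n.1 : ℝ) ≤ Y := by exact_mod_cast hb1.2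
      have hkb : ¬ (n.1 : ℤ) ∣ k := by
        intro h2
        apply hnb
        rw [hk, ← hn.2]
        exact dvd_mul_of_dvd_right h2 _
      have he0 : (0 : ℝ) < ((∏ p ∈ n.2, p : ℕ) : ℝ) := by
        have : val n = n.1 * ∏ p ∈ n.2, p := rfl
        rw [this] at hvn
        push_cast at hvn ⊢
        exact (pos_iff_pos_of_mul_pos hvn).1 hb0
      have hyv : (y0 : ℝ) / val n = k / n.1 := by
        have : val n = n.1 * ∏ p ∈ n.2, p := rfl
        rw [this, hk]
        rw [div_eq_div_iff (by positivity) hb0.ne']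
        push_cast
        ring
      have h2 : ∀ m : ℤ, 1 / (n.1 : ℝ) ≤ |(y0 : ℝ) / val n - m| := by
        intro m
        rw [hyv]
        have h3 : (k : ℝ) / n.1 - m = ((k - m * n.1 : ℤ) : ℝ) / n.1 := by
          push_cast
          field_simp
        rw [h3, abs_div, abs_of_pos hb0]
        refine div_le_div_of_nonneg_right ?_ hb0.le
        have h4 : (1 : ℤ) ≤ |k - m * n.1| := by
          refine Int.one_le_abs ?_
          intro h5
          apply hkb
          exact ⟨m, by linarith⟩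
        exact_mod_cast h4
      have h3 : |(h : ℝ) / val n - y0 / val n| ≤ 1 / (2 * Y) := by
        rw [← sub_div, abs_div, abs_of_pos hvn, div_le_div_iff₀ hvn (by positivity)]
        have h4 := hMn n hn.1
        have h5 : |(h : ℝ) - y0| * (2 * Y) ≤ L * (2 * Y) :=
          mul_le_mul_of_nonneg_right hhy (by positivity)
        linarith
      have h4 : 1 / (2 * Y : ℝ) ≤ nd (h / val n) := by
        have h5 := h2 (round (h / val n : ℝ))
        have h6 : |(y0 : ℝ) / val n - round (h / val n : ℝ)| ≤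
            |(h : ℝ) / val n - y0 / val n| + nd (h / val n) := by
          unfold nd
          rw [abs_sub_comm ((h : ℝ) / val n) (y0 / val n)]
          have := abs_add_le ((y0 : ℝ) / val n - h / val n)
            ((h : ℝ) / val n - round (h / val n : ℝ))
          rwa [sub_add_sub_cancel] at this
        have h7 : 1 / (Y : ℝ) ≤ 1 / (n.1 : ℝ) := one_div_le_one_div_of_le hb0 hbY
        have h8 : 1 / (Y : ℝ) = 1 / (2 * Y) + 1 / (2 * Y) := by
          field_simp
          norm_num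
        linarith
      have h5 : (0 : ℝ) ≤ 1 / (2 * Y) := by positivity
      have := pow_le_pow_left₀ h5 h4 2
      linarith
    have h2 := card_nsmul_le_sum _ _ _ h1
    rw [nsmul_eq_mul] at h2
    have h3 : ∑ n ∈ D.filter (fun m => m.1 = n1.1), 2 * nd (h / val n) ^ 2 ≤
        ∑ n ∈ D, 2 * nd (h / val n) ^ 2 :=
      sum_le_sum_of_subset_of_nonneg (filter_subset _ _) fun n _ _ => by positivity
    have h4 := hB0 n1 hn1
    have h5 : Θ ≤ ((D.filter (fun m => m.1 = n1.1)).card : ℝ) * (2 * (1 / (2 * Y)) ^ 2) := by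
      have h6 : Θ * (2 * (Y : ℝ) ^ 2) ≤ (D.filter (fun m => m.1 = n1.1)).card := hBΘ.trans h4
      have h7 : (2 : ℝ) * (1 / (2 * Y)) ^ 2 = 1 / (2 * (Y : ℝ) ^ 2) := by
        field_simp
      rw [h7, mul_one_div, le_div_iff₀ (by positivity)]
      exact h6
    linarith
  -- the lcm divides
  have hlcm : ((D.lcm val : ℕ) : ℤ) ∣ y0 := by
    rw [Int.natCast_dvd]
    refine Finset.lcm_dvd fun n hn => ?_
    have h1 := Int.natCast_dvd.1 (hb n hn)
    have h2 := Int.natCast_dvd.1 (hprod n.2 (hDC n hn).2)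
    have hcop : Nat.Coprime n.1 (∏ p ∈ n.2, p) := by
      refine Nat.Coprime.prod_right fun p hp => ?_
      have hpV := (hDC n hn).2 hp
      rw [Nat.coprime_comm, Nat.Prime.coprime_iff_not_dvd (hV p hpV)]
      intro h3
      have hb1 := mem_Icc.1 (hC n (hDC n hn).1).1
      have h4 := Nat.le_of_dvd (by omega) h3
      have h5 := hVY p hpV
      omega
    exact hcop.mul_dvd_of_dvd_of_dvd h1 h2
  have hy00 : y0 = 0 := by
    by_contra hne
    have h1 : ((D.lcm val : ℕ) : ℤ) ≤ |y0| := by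
      refine Int.le_of_dvd (abs_pos.2 hne) ?_
      rwa [dvd_abs]
    have h2 : ((D.lcm val : ℕ) : ℝ) ≤ |(y0 : ℝ)| := by exact_mod_cast h1
    have h3 : |(y0 : ℝ)| ≤ |(h : ℝ)| + L := by
      have := abs_add_le (h : ℝ) ((y0 : ℝ) - h)
      rw [add_sub_cancel, abs_sub_comm (y0 : ℝ) h] at this
      linarith
    have h4 : (val n0 : ℝ) ≤ (D.lcm val : ℕ) := by
      have h5 : val n0 ∣ D.lcm val := Finset.dvd_lcm hn0
      have h6 : 0 < D.lcm val := by
        refine Nat.pos_of_ne_zero fun h7 => ?_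
        rw [Finset.lcm_eq_zero_iff] at h7
        obtain ⟨n, hn, h8⟩ := h7
        exact (hDv n hn).ne' h8
      exact_mod_cast Nat.le_of_dvd h6 h5
    -- 2 L < val
    have h5 : 2 * (L : ℝ) < val n0 := by
      obtain ⟨e, he1, he2⟩ := exists_subset_card_eq (show 5 ≤ n0.2.card by
        rw [(hC n0 (hDC n0 hn0).1).2]; omega)
      have h6 := h5 e (mem_powersetCard.2 ⟨he1.trans (hDC n0 hn0).2, he2⟩)
      have h7 : ∏ p ∈ e, p ≤ val n0 := by
        refine Nat.le_of_dvd (hDv n0 hn0) ?_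
        exact dvd_mul_of_dvd_right (prod_dvd_prod_of_subset _ _ _ he1) _
      have h8 : 2 * L < val n0 := h6.trans_le h7
      exact_mod_cast h8
    linarith
  rw [hy00] at hhy
  simpa using hhy

end Pool.Agent.H67EF
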