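import Pool.Agent.H67EF.Es

set_option autoImplicit false

namespace Pool.Agent.H67EF

open Finset

/-- Primes in a block. -/
def blk (i : ℕ) : Finset ℕ := (Ioc (4 ^ i) (4 ^ (i + 1))).filter Nat.Prime

/-- The primes used. -/
def PP (t : ℕ) : Finset ℕ := (Ioc (4 ^ (39 * t)) (4 ^ (40 * t))).filter Nat.Prime

theorem theta_nat (n : ℕ) : Chebyshev.theta (n : ℝ) =
    ∑ p ∈ Ioc 0 n, if p.Prime then Real.log p else 0 := by
  unfold Chebyshev.theta
  rw [Nat.floor_natCast, sum_filter]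

theorem theta_diff (i : ℕ) : Chebyshev.theta ((4 ^ (i + 1) : ℕ) : ℝ) -
    Chebyshev.theta ((4 ^ i : ℕ) : ℝ) = ∑ p ∈ blk i, Real.log p := by
  rw [theta_nat, theta_nat, blk, sum_filter,
    ← sum_Ioc_consecutive _ (Nat.zero_le (4 ^ i)) (Nat.pow_le_pow_right (by norm_num)
      (Nat.le_succ i))]
  ring

theorem small_ineq (i : ℕ) (hi : 7 ≤ i) : 2 * ((i : ℝ) + 2) + 8 * (i + 1) * 2 ^ i ≤ 4 ^ i := by
  induction i, hi using Nat.le_induction with
  | base => norm_num
  | succ i hi ih =>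
    have h1 : (7 : ℝ) ≤ i := by exact_mod_cast hi
    have h2 : (0 : ℝ) < 2 ^ i := by positivity
    have h3 : (1 : ℝ) ≤ 2 ^ i := one_le_pow₀ (by norm_num)
    have e1 : (4 : ℝ) ^ (i + 1) = 4 * 4 ^ i := by ring
    have e2 : (2 : ℝ) ^ (i + 1) = 2 * 2 ^ i := by ring
    rw [e1, e2]
    push_cast
    nlinarith

theorem log_four : Real.log 4 = 2 * Real.log 2 := by
  rw [show (4 : ℝ) = 2 ^ 2 by norm_num, Real.log_pow]
  norm_num

theorem log_four_pow (i : ℕ) : Real.log ((4 ^ i : ℕ) : ℝ) = i * (2 * Real.log 2) := by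
  push_cast
  rw [Real.log_pow, log_four]

theorem blk_lower (i : ℕ) (hi : 7 ≤ i) : 1 / (8 * ((i : ℝ) + 1)) ≤ mu (blk i) := by
  have hl2 : 0 < Real.log 2 := Real.log_pos (by norm_num)
  have h1 := Chebyshev.theta_ge (4 ^ (i + 1))
  have h2 := Chebyshev.theta_le_log4_mul_x (x := ((4 ^ i : ℕ) : ℝ)) (by positivity)
  rw [log_four] at h2
  have h3 : √((4 ^ (i + 1) : ℕ) : ℝ) = 2 ^ (i + 1) := by
    push_cast
    rw [show (4 : ℝ) ^ (i + 1) = (2 ^ (i + 1)) ^ 2 by
      rw [← pow_mul, mul_comm, pow_mul]; norm_num]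
    exact Real.sqrt_sq (by positivity)
  have h4 : Real.log (((4 ^ (i + 1) : ℕ) : ℝ) + 1) ≤ (i + 2) * (2 * Real.log 2) := by
    have : ((4 ^ (i + 1) : ℕ) : ℝ) + 1 ≤ ((4 ^ (i + 2) : ℕ) : ℝ) := by
      push_cast
      have : (1 : ℝ) ≤ 4 ^ (i + 1) := one_le_pow₀ (by norm_num)
      have e : (4 : ℝ) ^ (i + 2) = 4 * 4 ^ (i + 1) := by ring
      rw [e]
      linarith
    have h5 := Real.log_le_log (by positivity) this
    rw [log_four_pow] at h5
    push_cast at h5 ⊢
    exact h5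
  rw [h3, log_four_pow] at h1
  have h5 := theta_diff i
  have h6 : ∑ p ∈ blk i, Real.log p ≤ (blk i).card * (((i + 1 : ℕ) : ℝ) * (2 * Real.log 2)) := by
    rw [← nsmul_eq_mul]
    refine sum_le_card_nsmul _ _ _ fun p hp => ?_
    rw [blk, mem_filter, mem_Ioc] at hp
    rw [← log_four_pow]
    refine Real.log_le_log ?_ ?_
    · exact_mod_cast hp.2.pos
    · exact_mod_cast hp.1.2
  have h7 : (blk i).card * (1 / 4 ^ (i + 1) : ℝ) ≤ mu (blk i) := by
    unfold mu
    rw [← nsmul_eq_mul]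
    refine card_nsmul_le_sum _ _ _ fun p hp => ?_
    rw [blk, mem_filter, mem_Ioc] at hp
    refine one_div_le_one_div_of_le ?_ ?_
    · exact_mod_cast hp.2.pos
    · exact_mod_cast hp.1.2
  have h8 := small_ineq i hi
  have h9 : Real.log 2 * 4 ^ i ≤ (blk i).card * (((i + 1 : ℕ) : ℝ) * (2 * Real.log 2)) := by
    refine le_trans ?_ h6
    rw [← h5]
    push_cast at h1 h2 h4 ⊢
    have h10 : Real.log 2 * (2 * ((i : ℝ) + 2) + 8 * (i + 1) * 2 ^ i) ≤ Real.log 2 * 4 ^ i :=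
      mul_le_mul_of_nonneg_left h8 hl2.le
    have e1 : (4 : ℝ) ^ (i + 1) = 4 * 4 ^ i := by ring
    have e2 : (2 : ℝ) ^ (i + 1) = 2 * 2 ^ i := by ring
    rw [e1] at h1 h4 ⊢
    rw [e2] at h1
    nlinarith
  have h10 : (4 : ℝ) ^ i ≤ (blk i).card * (((i + 1 : ℕ) : ℝ) * 2) := by
    have : Real.log 2 * 4 ^ i ≤ Real.log 2 * ((blk i).card * (((i + 1 : ℕ) : ℝ) * 2)) := by
      linarith
    exact le_of_mul_le_mul_left this hl2
  refine le_trans ?_ h7
  rw [mul_one_div, div_le_div_iff₀ (by positivity) (by positivity)]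
  have e1 : (4 : ℝ) ^ (i + 1) = 4 * 4 ^ i := by ring
  rw [e1]
  push_cast at h10
  linarith

theorem blk_upper (i : ℕ) (hi : 1 ≤ i) : mu (blk i) ≤ 4 / i := by
  have hl2 : 0 < Real.log 2 := Real.log_pos (by norm_num)
  have h2 := Chebyshev.theta_le_log4_mul_x (x := ((4 ^ (i + 1) : ℕ) : ℝ)) (by positivity)
  rw [log_four] at h2
  have h3 := Chebyshev.theta_nonneg ((4 ^ i : ℕ) : ℝ)
  have h5 := theta_diff i
  have h6 : (blk i).card * ((i : ℝ) * (2 * Real.log 2)) ≤ ∑ p ∈ blk i, Real.log p := by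
    rw [← nsmul_eq_mul]
    refine card_nsmul_le_sum _ _ _ fun p hp => ?_
    rw [blk, mem_filter, mem_Ioc] at hp
    rw [← log_four_pow]
    refine Real.log_le_log (by positivity) ?_
    exact_mod_cast hp.1.1.le
  have h7 : mu (blk i) ≤ (blk i).card * (1 / 4 ^ i : ℝ) := by
    unfold mu
    rw [← nsmul_eq_mul]
    refine sum_le_card_nsmul _ _ _ fun p hp => ?_
    rw [blk, mem_filter, mem_Ioc] at hp
    refine one_div_le_one_div_of_le (by positivity) ?_
    exact_mod_cast hp.1.1.le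
  have hi0 : (0 : ℝ) < i := by exact_mod_cast hi
  have h8 : ((blk i).card : ℝ) * i ≤ 4 ^ (i + 1) := by
    have : (2 * Real.log 2) * ((blk i).card * i) ≤ (2 * Real.log 2) * 4 ^ (i + 1) := by
      push_cast at h2
      push_cast at h5 h3
      nlinarith
    exact le_of_mul_le_mul_left this (by positivity)
  refine h7.trans ?_
  rw [mul_one_div, div_le_div_iff₀ (by positivity) hi0]
  have e1 : (4 : ℝ) ^ (i + 1) = 4 * 4 ^ i := by ring
  linarith

theorem mu_PP (t : ℕ) : mu (PP t) = ∑ i ∈ Ico (39 * t) (40 * t), mu (blk i) := by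
  have h : ∀ k : ℕ, mu ((Ioc (4 ^ (39 * t)) (4 ^ (39 * t + k))).filter Nat.Prime) =
      ∑ i ∈ Ico (39 * t) (39 * t + k), mu (blk i) := by
    intro k
    induction k with
    | zero => simp [mu]
    | succ k ih =>
      rw [← add_assoc, sum_Ico_succ_top (Nat.le_add_right _ _), ← ih]
      unfold mu blk
      rw [sum_filter, sum_filter, sum_filter]
      refine (sum_Ioc_consecutive _ ?_ ?_).symm
      · exact Nat.pow_le_pow_right (by norm_num) (Nat.le_add_right _ _)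
      · exact Nat.pow_le_pow_right (by norm_num) (Nat.le_succ _)
  have := h t
  rw [show 39 * t + t = 40 * t by ring] at this
  exact this

theorem PP_lower (t : ℕ) (ht : 1 ≤ t) : 1 / 320 ≤ mu (PP t) := by
  rw [mu_PP]
  have h1 : ∀ i ∈ Ico (39 * t) (40 * t), 1 / (320 * (t : ℝ)) ≤ mu (blk i) := by
    intro i hi
    rw [mem_Ico] at hi
    refine le_trans ?_ (blk_lower i (by omega))
    have h2 : ((i : ℝ) + 1) ≤ 40 * t := by
      have : i + 1 ≤ 40 * t := by omega
      exact_mod_cast this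
    exact one_div_le_one_div_of_le (by positivity) (by linarith)
  have h2 := card_nsmul_le_sum _ _ _ h1
  rw [Nat.card_Ico, nsmul_eq_mul] at h2
  refine le_trans ?_ h2
  have h3 : 40 * t - 39 * t = t := by omega
  rw [h3]
  have : (0 : ℝ) < t := by exact_mod_cast ht
  rw [mul_one_div, div_le_div_iff₀ (by norm_num) (by positivity)]
  linarith

theorem PP_upper (t : ℕ) (ht : 1 ≤ t) : mu (PP t) ≤ 1 / 9 := by
  rw [mu_PP]
  have ht0 : (0 : ℝ) < t := by exact_mod_cast ht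
  have h1 : ∀ i ∈ Ico (39 * t) (40 * t), mu (blk i) ≤ 4 / (39 * t) := by
    intro i hi
    rw [mem_Ico] at hi
    refine (blk_upper i (by omega)).trans ?_
    have h2 : (39 * (t : ℝ)) ≤ i := by exact_mod_cast hi.1
    exact div_le_div_of_nonneg_left (by norm_num) (by positivity) h2
  have h2 := sum_le_card_nsmul _ _ _ h1
  rw [Nat.card_Ico, nsmul_eq_mul] at h2
  refine h2.trans ?_
  have h3 : 40 * t - 39 * t = t := by omega
  rw [h3, mul_div_assoc', div_le_div_iff₀ (by positivity) (by norm_num)]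
  linarith

end Pool.Agent.H67EF
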