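import Pool.Agent.H67EF.Ext
import Pool.Agent.H67EF.Prm

set_option autoImplicit false

namespace Pool.Agent.H67EF

open Finset

theorem PP_mem {t p : ℕ} (hp : p ∈ PP t) : p.Prime ∧ (4 ^ t) ^ 39 < p ∧ p ≤ (4 ^ t) ^ 40 := by
  rw [PP, mem_filter, mem_Ioc] at hp
  rw [← pow_mul, ← pow_mul, mul_comm t 39, mul_comm t 40]
  exact ⟨hp.2, hp.1.1, hp.1.2⟩

/-- bounds for products of primes -/
theorem prod_bounds (e : Finset ℕ) (a z : ℕ) (h : ∀ p ∈ e, a < p ∧ p ≤ z) :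
    a ^ e.card ≤ ∏ p ∈ e, p ∧ ∏ p ∈ e, p ≤ z ^ e.card := by
  constructor
  · exact pow_card_le_prod e _ a fun p hp => (h p hp).1.le
  · exact prod_le_pow_card e _ z fun p hp => (h p hp).2

theorem val_bounds (t Y : ℕ) (n : ℕ × Finset ℕ) (h : n.1 ∈ Icc 1 Y ∧ n.2 ∈ (PP t).powersetCard 7) :
    (4 ^ t) ^ 273 ≤ val n ∧ val n ≤ Y * (4 ^ t) ^ 280 := by
  obtain ⟨h1, h2⟩ := h
  rw [mem_Icc] at h1
  rw [mem_powersetCard] at h2
  have h3 := prod_bounds n.2 ((4 ^ t) ^ 39) ((4 ^ t) ^ 40) fun p hp => (PP_mem (h2.1 hp)).2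
  have e1 : (((4 : ℕ) ^ t) ^ 39) ^ 7 = (4 ^ t) ^ 273 := by rw [← pow_mul ((4 : ℕ) ^ t) 39 7]
  have e2 : (((4 : ℕ) ^ t) ^ 40) ^ 7 = (4 ^ t) ^ 280 := by rw [← pow_mul ((4 : ℕ) ^ t) 40 7]
  rw [h2.2, e1, e2] at h3
  unfold val
  constructor
  · calc (4 ^ t) ^ 273 ≤ ∏ p ∈ n.2, p := h3.1
      _ = 1 * ∏ p ∈ n.2, p := (one_mul _).symm
      _ ≤ _ := Nat.mul_le_mul_right _ h1.1
  · exact Nat.mul_le_mul h1.2 h3.2

theorem lcm_bound (t Y : ℕ) (D : Finset (ℕ × Finset ℕ))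
    (hD : ∀ n ∈ D, n.1 ∈ Icc 1 Y ∧ n.2 ∈ (PP t).powersetCard 7) :
    0 < D.lcm val ∧ D.lcm val ≤ Y ^ Y * 4 ^ ((4 ^ t) ^ 40) := by
  have h1 : D.lcm val ∣ Y.factorial * primorial ((4 ^ t) ^ 40) := by
    refine Finset.lcm_dvd fun n hn => ?_
    obtain ⟨h1, h2⟩ := hD n hn
    rw [mem_Icc] at h1
    rw [mem_powersetCard] at h2
    unfold val
    refine mul_dvd_mul (Nat.dvd_factorial h1.1 h1.2) ?_
    unfold primorial
    refine prod_dvd_prod_of_subset _ _ _ fun p hp => ?_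
    obtain ⟨h3, _, h4⟩ := PP_mem (h2.1 hp)
    rw [mem_filter, mem_range]
    exact ⟨by omega, h3⟩
  have h2 : 0 < Y.factorial * primorial ((4 ^ t) ^ 40) :=
    Nat.mul_pos (Nat.factorial_pos _) (primorial_pos _)
  refine ⟨Nat.pos_of_dvd_of_pos h1 h2, (Nat.le_of_dvd h2 h1).trans ?_⟩
  exact Nat.mul_le_mul (Nat.factorial_le_pow Y) (primorial_le_four_pow _)

theorem log_lcm (t Y : ℕ) (D : Finset (ℕ × Finset ℕ))
    (hD : ∀ n ∈ D, n.1 ∈ Icc 1 Y ∧ n.2 ∈ (PP t).powersetCard 7)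
    (hY : (Y : ℝ) ^ 2 ≤ (4 : ℝ) ^ t) (hg : (10 : ℝ) ^ 8 ≤ (4 : ℝ) ^ t) :
    Real.log (4 * (D.lcm val : ℕ)) ≤ ((4 : ℝ) ^ t) ^ 41 := by
  obtain ⟨h1, h2⟩ := lcm_bound t Y D hD
  set g : ℝ := (4 : ℝ) ^ t with hgd
  have h1' : (0 : ℝ) < (D.lcm val : ℕ) := by exact_mod_cast h1
  rw [Real.log_le_iff_le_exp (by positivity)]
  have h2' : ((D.lcm val : ℕ) : ℝ) ≤ (Y : ℝ) ^ Y * 4 ^ ((4 ^ t) ^ 40) := by exact_mod_cast h2
  have e4 : (4 : ℝ) ≤ Real.exp 2 := by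
    have h := Real.add_one_le_exp (1 : ℝ)
    have : Real.exp 2 = Real.exp 1 ^ 2 := by rw [← Real.exp_nat_mul]; norm_num
    rw [this]
    nlinarith
  have eY : (Y : ℝ) ≤ Real.exp Y := by
    have := Real.add_one_le_exp (Y : ℝ)
    linarith
  have h3 : (Y : ℝ) ^ Y ≤ Real.exp ((Y : ℝ) ^ 2) := by
    calc (Y : ℝ) ^ Y ≤ Real.exp Y ^ Y := pow_le_pow_left₀ (by positivity) eY _
      _ = Real.exp ((Y : ℝ) ^ 2) := by rw [← Real.exp_nat_mul, sq]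
  have h4 : (4 : ℝ) ^ ((4 ^ t) ^ 40) ≤ Real.exp (g ^ 40 * 2) := by
    calc (4 : ℝ) ^ ((4 ^ t) ^ 40) ≤ Real.exp 2 ^ ((4 ^ t) ^ 40) :=
          pow_le_pow_left₀ (by positivity) e4 _
      _ = Real.exp (g ^ 40 * 2) := by
          rw [← Real.exp_nat_mul]
          push_cast
          rfl
  calc (4 : ℝ) * (D.lcm val : ℕ) ≤ Real.exp 2 * (Real.exp ((Y : ℝ) ^ 2) * Real.exp (g ^ 40 * 2)) := by
        refine mul_le_mul e4 (h2'.trans (mul_le_mul h3 h4 (by positivity) (by positivity)))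
          (by positivity) (by positivity)
    _ = Real.exp (2 + ((Y : ℝ) ^ 2 + g ^ 40 * 2)) := by rw [Real.exp_add, Real.exp_add]
    _ ≤ Real.exp (g ^ 41) := by
        apply Real.exp_le_exp.2
        have hg1 : 1 ≤ g := by linarith
        have h5 : g ≤ g ^ 40 := le_self_pow₀ hg1 (by norm_num)
        have h6 : g ^ 41 = g * g ^ 40 := by ring
        rw [h6]
        nlinarith


theorem partA (r Y t : ℕ) (hr : 1 ≤ r)
    (hW : 800 * (r : ℝ) ≤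
      ((1 / (53760 * (r : ℝ))) ^ 2 * ((1 / (53760 * (r : ℝ)) / 2) ^ 5 / 120)) * W Y)
    (ht : 1 ≤ t) (η : ℝ) (hη0 : 0 < η) (hηP : ∀ p ∈ PP t, (1 / p : ℝ) ≤ η)
    (h12 : 12 * η ≤ 1 / (53760 * (r : ℝ)))
    (C : Finset (ℕ × Finset ℕ))
    (hC : ∀ n ∈ C, n.1 ∈ Icc 1 Y ∧ n.2 ∈ (PP t).powersetCard 7)
    (hCw : W Y * es 7 (PP t) ≤ r * wt C) :
    ∃ V ⊆ PP t, ∃ Φ : ℝ, 0 < Φ ∧ 0 < es 5 V ∧
      wt (C.filter (fun n => n.2 ⊆ V)) = Φ * (mu V * es 5 V) ∧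
      (∀ Q ⊆ PP t, wt (C.filter (fun n => n.2 ⊆ Q)) ≤ Φ * (mu Q * es 5 Q)) ∧
      1 / (53760 * (r : ℝ)) ≤ mu V ∧ mu V ≤ 1 / 9 ∧ 800 * (r : ℝ) ≤ Φ * (mu V * es 5 V) ∧
      W Y * mu V / (168 * r) ≤ Φ ∧ 0 < W Y := by
  have hr' : (1 : ℝ) ≤ r := by exact_mod_cast hr
  set P := PP t with hP
  set u : ℝ := 1 / (53760 * (r : ℝ)) with hu
  have hs1 : 1 / 320 ≤ mu P := PP_lower t ht
  have hs2 : mu P ≤ 1 / 9 := PP_upper t ht
  have hu0 : 0 < u := by positivity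
  have hu1 : u ≤ 1 / 53760 := by
    refine one_div_le_one_div_of_le (by norm_num) ?_
    linarith
  have hWpos : 0 < W Y := by
    by_contra h
    push Not at h
    have : (u ^ 2 * ((u / 2) ^ 5 / 120)) * W Y ≤ 0 :=
      mul_nonpos_of_nonneg_of_nonpos (by positivity) h
    linarith
  have hmP : 0 < mu P := by linarith
  have h5P : 0 < es 5 P := by
    refine lt_of_lt_of_le ?_ (es5_lower P η hη0.le hηP (by linarith))
    positivity
  have h7P := es7_lower P η hη0.le hηP (by linarith)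
  have hd : W Y * mu P / (168 * r) * (mu P * es 5 P) ≤ wt C := by
    have h1 := mul_le_mul_of_nonneg_left h7P hWpos.le
    have h2 := h1.trans hCw
    have e : W Y * mu P / (168 * r) * (mu P * es 5 P) =
        W Y * (mu P ^ 2 / 168 * es 5 P) / r := by
      field_simp
    rw [e, div_le_iff₀ (by linarith)]
    linarith
  obtain ⟨V, hVP, Φ, hδΦ, hmV, hes5, hwV, hext⟩ := exists_V Y P C hC
    (W Y * mu P / (168 * r)) (by positivity) (by positivity) hd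
  have hΦ : 0 < Φ := lt_of_lt_of_le (by positivity) hδΦ
  have hmVP : mu V ≤ mu P := mu_mono hVP
  have hδ : W Y * u ≤ W Y * mu P / (168 * r) := by
    rw [mul_div_assoc]
    refine mul_le_mul_of_nonneg_left ?_ hWpos.le
    rw [hu, div_le_div_iff₀ (by positivity) (by positivity)]
    nlinarith
  have hΦW : Φ ≤ W Y * mu V := by
    have h1 := wt_cl_le Y P V C hC
    rw [hwV] at h1
    exact le_of_mul_le_mul_right h1 (by positivity)
  have hmuV : u ≤ mu V := by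
    have h1 : W Y * u ≤ W Y * mu V := by linarith
    exact le_of_mul_le_mul_left h1 hWpos
  have hηV : ∀ p ∈ V, (1 / p : ℝ) ≤ η := fun p hp => hηP p (hVP hp)
  have h5lo : (u / 2) ^ 5 / 120 ≤ es 5 V := by
    refine le_trans ?_ (es5_lower V η hη0.le hηV (by linarith))
    have : (u / 2) ^ 5 ≤ (mu V / 2) ^ 5 := pow_le_pow_left₀ (by positivity) (by linarith) _
    linarith
  refine ⟨V, hVP, Φ, hΦ, hes5, hwV, hext, hmuV, hmVP.trans hs2, ?_, ?_, hWpos⟩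
  · refine hW.trans ?_
    have h1 : W Y * u ≤ Φ := hδ.trans hδΦ
    have h2 : u * ((u / 2) ^ 5 / 120) ≤ mu V * es 5 V :=
      mul_le_mul hmuV h5lo (by positivity) hmV.le
    have h3 : (W Y * u) * (u * ((u / 2) ^ 5 / 120)) ≤ Φ * (mu V * es 5 V) :=
      mul_le_mul h1 h2 (by positivity) hΦ.le
    refine le_trans (le_of_eq ?_) h3
    ring
  · refine le_trans ?_ hδΦ
    refine div_le_div_of_nonneg_right ?_ (by positivity)
    exact mul_le_mul_of_nonneg_left hmVP hWpos.le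

section numeric

variable (g Y : ℝ) (hY : 1 ≤ Y) (hg : (10 : ℝ) ^ 8 * Y ^ 2 ≤ g)

include hY hg

theorem num0 : 1 ≤ g ∧ Y < g ∧ 8 * Y ^ 2 ≤ g ∧ 8 * Y ≤ g := by
  have h1 : Y ≤ Y ^ 2 := by nlinarith
  refine ⟨by nlinarith, by nlinarith, by nlinarith, by nlinarith⟩

theorem num1 : g ^ 40 * (Y * g ^ 42 * (1 / g ^ 273)) ≤ 1 / 8 := by
  obtain ⟨gone, hYg, hY2, hY8⟩ := num0 g Y hY hg
  have gpos : 0 < g := by linarith
  have e : g ^ 40 * (Y * g ^ 42 * (1 / g ^ 273)) = Y / g ^ 191 := by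
    field_simp
  rw [e, div_le_div_iff₀ (by positivity) (by norm_num)]
  have : g ≤ g ^ 191 := le_self_pow₀ gone (by norm_num)
  generalize g ^ 191 = q at *
  linarith

theorem num2 : g ^ 41 * (Y * g ^ 280) ^ 2 / (2 * (g ^ 194) ^ 2) / g ^ 273 ≤
    Y ^ 2 / (2 * g ^ 60) := by
  obtain ⟨gone, hYg, hY2, hY8⟩ := num0 g Y hY hg
  have gpos : 0 < g := by linarith
  refine le_of_eq ?_
  field_simp

theorem num3 : g ^ 40 * (Y ^ 2 / (2 * g ^ 60)) ≤ 1 / 8 := by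
  obtain ⟨gone, hYg, hY2, hY8⟩ := num0 g Y hY hg
  have gpos : 0 < g := by linarith
  have e : g ^ 40 * (Y ^ 2 / (2 * g ^ 60)) = Y ^ 2 / (2 * g ^ 20) := by
    field_simp
  rw [e, div_le_div_iff₀ (by positivity) (by norm_num)]
  have : g ≤ g ^ 20 := le_self_pow₀ gone (by norm_num)
  generalize g ^ 20 = q at *
  linarith

theorem num4 : 2 * Y * g ^ 194 ≤ g ^ 273 := by
  obtain ⟨gone, hYg, hY2, hY8⟩ := num0 g Y hY hg
  have gpos : 0 < g := by linarith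
  calc 2 * Y * g ^ 194 ≤ g * g ^ 194 := mul_le_mul_of_nonneg_right (by linarith) (by positivity)
    _ = g ^ 195 := by rw [← pow_succ']
    _ ≤ g ^ 273 := pow_le_pow_right₀ gone (by norm_num)

theorem num5 : g ^ 41 * (2 * Y ^ 2) ≤ g ^ 42 := by
  obtain ⟨gone, hYg, hY2, hY8⟩ := num0 g Y hY hg
  have gpos : 0 < g := by linarith
  calc g ^ 41 * (2 * Y ^ 2) ≤ g ^ 41 * g := mul_le_mul_of_nonneg_left (by linarith) (by positivity)
    _ = g ^ 42 := by rw [← pow_succ]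

theorem num6 : g ^ 41 ≤ g ^ 273 * (1 / 2) := by
  obtain ⟨gone, hYg, hY2, hY8⟩ := num0 g Y hY hg
  have gpos : 0 < g := by linarith
  have h4 : g ^ 42 ≤ g ^ 273 := pow_le_pow_right₀ gone (by norm_num)
  have h5 : g ^ 42 = g * g ^ 41 := by rw [← pow_succ']
  have h6 : 0 < g ^ 41 := by positivity
  rw [h5] at h4
  generalize g ^ 273 = q at *
  generalize g ^ 41 = q' at *
  nlinarith

theorem num7 : 2 * g ^ 194 < g ^ 273 := by
  obtain ⟨gone, hYg, hY2, hY8⟩ := num0 g Y hY hg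
  have gpos : 0 < g := by linarith
  have h2 : g ^ 195 ≤ g ^ 273 := pow_le_pow_right₀ gone (by norm_num)
  have h3 : g ^ 195 = g * g ^ 194 := by rw [← pow_succ']
  have h4 : 0 < g ^ 194 := by positivity
  rw [h3] at h2
  generalize g ^ 273 = q at *
  generalize g ^ 194 = q' at *
  nlinarith

theorem num8 : (Y * g ^ 42 * (1 / g ^ 273) + 1 / g ^ 273) * g ^ 194 ≤ 1 / 2 := by
  obtain ⟨gone, hYg, hY2, hY8⟩ := num0 g Y hY hg
  have gpos : 0 < g := by linarith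
  have e : (Y * g ^ 42 * (1 / g ^ 273) + 1 / g ^ 273) * g ^ 194 = (Y * g ^ 42 + 1) / g ^ 79 := by
    field_simp
  rw [e, div_le_div_iff₀ (by positivity) (by norm_num)]
  have h2 : g ^ 43 ≤ g ^ 79 := pow_le_pow_right₀ gone (by norm_num)
  have h3 : g ^ 43 = g * g ^ 42 := by rw [← pow_succ']
  have h4 : 1 ≤ g ^ 42 := one_le_pow₀ gone
  rw [h3] at h2
  generalize g ^ 79 = q at *
  generalize g ^ 42 = q' at *
  nlinarith

theorem num9 : g ^ 40 * (1 / g ^ 273) ≤ 1 := by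
  obtain ⟨gone, hYg, hY2, hY8⟩ := num0 g Y hY hg
  have gpos : 0 < g := by linarith
  rw [mul_one_div, div_le_one (by positivity)]
  exact pow_le_pow_right₀ gone (by norm_num)

end numeric

end Pool.Agent.H67EF
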